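import Pool.Agent.T2h83.AQ.Cls
import Pool.Agent.T2h83.AQ.Smooth
import Pool.Agent.Results.MP_967f73_nt.AliquotSums

/-!
# Goldbach's problem for the aliquot sums of almost all even numbers

Let `s(m) = σ(m) - m` be the sum of the proper divisors of `m`. We show that for more than 99.997 per cent of all even
integers `m` both `s(m)` and the cototient `m - φ(m)` are sums of two different primes, so that the system of the problem
is solvable for `s(m) / 2` and for `(m - φ(m)) / 2`. It is so for almost all even `m` with a prime factor larger than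
`m^(1/6 + ρ)`; the exceptional proportion is the value `ρ(6) < 0.00003` of the Dickman function.

More generally, let `f` be any positive multiplicative function of moderate growth with `f(p) = p + c`, `c ≠ 0`, for all
large primes `p`, and let `g(m) = α m + β f(m)`. Let `2 / 3 ≤ θ ≤ 5 / 6`. For almost all `m` with a prime factor larger
than `m^(1 - θ + ρ)` the number `g(m)`, if it is even, positive and not very small, has in all windows of a length of at
least `g(m) / (log g(m))^W` between `1 - F² - ε` times and `1 + F + ε` times the number of representations as a sum of two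
primes predicted by Hardy and Littlewood, where `F = F (θ / (2 - 2 θ)) ≤ 0.965`.

Proof. Write `m = k p` with the large prime factor `p`. Then `g(m) = A p + B` with `A = α k + β f(k)` and `B = β c f(k)`,
and `A` is at most `x^(θ - ρ)` up to a power of the logarithm. The theorem on Goldbach's problem in the residue classes of
every modulus (`T2h83/GT`) is applied to the class of `B` modulo `A`, for every `k`.
-/

set_option autoImplicit false

namespace Pool.Agent.Results.MP_967f73_nt.AliquotSumsAlmostAll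

open Finset Filter Topology
open Pool.Agent.H560R3.GB (sing)
open Pool.Agent.Results.MP_967f73_nt.AliquotSums (Moderate count LargePrime AlmostAll aliquot Solved general
  moderate_sigma moderate_totient squarefree_at almostAll_and almostAll_iff log_large card_mono')

/-- the function `F(u) = log u + ∫_1^(u/2) log ((u - s) / s) ds / s` -/
noncomputable def F (u : ℝ) : ℝ := Real.log u + ∫ s in (1 : ℝ)..max 1 (u / 2), Real.log ((u - s) / s) / s

/-- In every window `(y₁, y₂] ⊆ (0, n]` of a length of at least `n / (log n)^W` the number of primes `p` such that `n - p` is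
a prime is between `lo` times and `hi` times `sing n * (y₂ - y₁) / (log n)²`. -/
def Bounds (lo hi : ℝ) (W n : ℕ) : Prop :=
  ∀ y₁ y₂ : ℕ, y₁ < y₂ → y₂ ≤ n → (n : ℝ) / Real.log n ^ W ≤ (y₂ : ℝ) - y₁ →
    lo * (sing n * ((y₂ : ℝ) - y₁) / Real.log n ^ 2) ≤ (count n y₁ y₂ : ℝ) ∧
    (count n y₁ y₂ : ℝ) ≤ hi * (sing n * ((y₂ : ℝ) - y₁) / Real.log n ^ 2)

theorem bounds (θ : ℝ) (hθ0 : 2 / 3 ≤ θ) (hθ1 : θ ≤ 5 / 6) (f : ℕ → ℕ) (c α β : ℤ) (C W : ℕ) (ρ ε : ℝ)
    (hf : Moderate f c) (hc : c ≠ 0) (hα : α ≠ 0) (hβ : β ≠ 0) (hρ : 0 < ρ) (hε : 0 < ε) :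
    AlmostAll (fun m => LargePrime (1 - θ + ρ) m → (m : ℝ) / Real.log m ^ C ≤ ((α * m + β * f m : ℤ) : ℝ) →
      Even (α * m + β * f m) → Bounds (1 - F (θ / (2 - 2 * θ)) ^ 2 - ε) (1 + F (θ / (2 - 2 * θ)) + ε) W
        (α * m + β * f m).toNat) :=
  general θ (by linarith) (by linarith) (Bounds (1 - F (θ / (2 - 2 * θ)) ^ 2 - ε) (1 + F (θ / (2 - 2 * θ)) + ε) W)
    (Pool.Agent.T2h83.AQ.ebt_T hθ0 hθ1 ε hε _ W ⟨0, fun n _ _ hw => hw⟩) f c α β C ρ hf hc hα hβ hρ

/-- In every window `(y₁, y₂] ⊆ (0, n]` of a length of at least `n / (log n)^W` the number of primes `p` such that `n - p` is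
a prime is at least a fiftieth of `sing n * (y₂ - y₁) / (log n)²`. -/
def Lower (W n : ℕ) : Prop :=
  ∀ y₁ y₂ : ℕ, y₁ < y₂ → y₂ ≤ n → (n : ℝ) / Real.log n ^ W ≤ (y₂ : ℝ) - y₁ →
    1 / 50 * (sing n * ((y₂ : ℝ) - y₁) / Real.log n ^ 2) ≤ (count n y₁ y₂ : ℝ)

theorem lower6 (f : ℕ → ℕ) (c α β : ℤ) (C W : ℕ) (ρ : ℝ) (hf : Moderate f c) (hc : c ≠ 0) (hα : α ≠ 0)
    (hβ : β ≠ 0) (hρ : 0 < ρ) :
    AlmostAll (fun m => LargePrime (1 / 6 + ρ) m → (m : ℝ) / Real.log m ^ C ≤ ((α * m + β * f m : ℤ) : ℝ) →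
      Even (α * m + β * f m) → Lower W (α * m + β * f m).toNat) := by
  have hF : ∀ u, F u = Pool.Agent.T2h83.GT.FU u := fun u => rfl
  obtain ⟨h3, h4⟩ := Pool.Agent.T2h83.GT.FU_bd (θ := 5 / 6) (by norm_num) le_rfl
  have h5 : Pool.Agent.T2h83.GT.FU ((5 / 6) / (2 - 2 * (5 / 6))) ^ 2 ≤ (965 / 1000) ^ 2 := pow_le_pow_left₀ h3 h4 2
  have h := general (5 / 6) (by norm_num) (by norm_num) (Lower W)
    (Pool.Agent.T2h83.AQ.ebt_T (by norm_num) le_rfl (1 / 100) (by norm_num) _ W ⟨3, fun n hn _ hw y₁ y₂ k1 k2 k3 => by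
      refine le_trans ?_ (hw y₁ y₂ k1 k2 k3).1
      apply mul_le_mul_of_nonneg_right
      · norm_num at h5 ⊢
        linarith
      · have e1 := Pool.Agent.R460.GS.one_le_sing n
        have e2 : (0 : ℝ) ≤ (y₂ : ℝ) - y₁ := by
          have : (y₁ : ℝ) ≤ y₂ := by exact_mod_cast k1.le
          linarith
        positivity⟩) f c α β C ρ hf hc hα hβ hρ
  rwa [show (1 - 5 / 6 : ℝ) = 1 / 6 by norm_num] at h

theorem solved_of : ∃ n₀ : ℕ, ∀ n : ℕ, n₀ ≤ n → Even n → Lower 1 n → Solved n := by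
  have hlog := (Real.tendsto_log_atTop.comp (tendsto_natCast_atTop_atTop (R := ℝ))).eventually_ge_atTop 4
  rw [eventually_atTop] at hlog
  obtain ⟨n1, hn1⟩ := hlog
  refine ⟨n1 + 4, fun n hn he hw => ?_⟩
  have hL : 4 ≤ Real.log (n : ℝ) := hn1 n (by omega)
  have hn4 : (4 : ℝ) ≤ n := by exact_mod_cast (by omega : 4 ≤ n)
  obtain ⟨t, ht⟩ := he
  obtain ⟨y, hy⟩ : ∃ y, y = t - 1 := ⟨_, rfl⟩
  have ht2 : 2 ≤ t := by omega
  have hyr : (y : ℝ) = n / 2 - 1 := by
    have e1 : 2 * y + 2 = n := by omega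
    have e2 : (2 : ℝ) * y + 2 = n := by exact_mod_cast e1
    linarith
  have h1 := hw 0 y (by omega) (by omega) (by
    rw [pow_one, Nat.cast_zero, sub_zero, div_le_iff₀ (by linarith)]
    rw [hyr]
    nlinarith)
  have hs := Pool.Agent.R460.GS.one_le_sing n
  have hy1 : (1 : ℝ) ≤ y := by exact_mod_cast (by omega : 1 ≤ y)
  have h2 : (0 : ℝ) < count n 0 y := by
    refine lt_of_lt_of_le ?_ h1
    rw [Nat.cast_zero, sub_zero]
    positivity
  have h3 : 0 < count n 0 y := by exact_mod_cast h2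
  unfold count at h3
  rw [card_pos] at h3
  obtain ⟨p, hp⟩ := h3
  rw [mem_filter, mem_Ioc] at hp
  obtain ⟨⟨p1, p2⟩, p3, p4⟩ := hp
  have hnt : n / 2 = t := by omega
  refine ⟨⟨t, ht⟩, ⟨p, n - p, p3, p4, by omega, by omega⟩, (t : ℤ) - p, by omega, ?_, ?_, ?_, ?_⟩
  · rw [hnt]
    have : (1 : ℤ) ≤ p := by exact_mod_cast p3.one_lt.le
    linarith
  · rw [hnt]
    omega
  · rw [hnt]
    have e1 : (t : ℤ) - ((t : ℤ) - p) = p := by ring
    rw [e1, Int.toNat_natCast, Nat.totient_prime p3]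
    have := p3.one_lt
    omega
  · rw [hnt]
    have e1 : (t : ℤ) + ((t : ℤ) - p) = ((n - p : ℕ) : ℤ) := by omega
    rw [e1, Int.toNat_natCast, Nat.totient_prime p4]
    have := p4.one_lt
    omega

theorem both (ρ : ℝ) (hρ : 0 < ρ) :
    AlmostAll (fun m => Even m → LargePrime (1 / 6 + ρ) m → Solved (aliquot m) ∧ Solved (m - Nat.totient m)) := by
  obtain ⟨n₀, hn₀⟩ := solved_of
  obtain ⟨m₁, hm₁⟩ := log_large
  have h1 := lower6 (fun m => ∑ d ∈ m.divisors, d) 1 (-1) 1 1 1 ρ moderate_sigma (by norm_num) (by norm_num)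
    (by norm_num) hρ
  have h2 := lower6 Nat.totient (-1) 1 (-1) 1 1 ρ moderate_totient (by norm_num) (by norm_num) (by norm_num) hρ
  have h3 := squarefree_at (1 / 6 + ρ) (by linarith)
  refine almostAll_and h1 (almostAll_and h2 h3 0 (R := fun m => (LargePrime (1 / 6 + ρ) m →
      (m : ℝ) / Real.log m ^ 1 ≤ ((1 * m + -1 * Nat.totient m : ℤ) : ℝ) →
      Even (1 * (m : ℤ) + -1 * Nat.totient m) → Lower 1 (1 * (m : ℤ) + -1 * Nat.totient m).toNat) ∧
      ∀ p : ℕ, (m : ℝ) ^ (1 / 6 + ρ) ≤ p → ¬ p ^ 2 ∣ m) (fun m _ a b => ⟨a, b⟩)) (2 * n₀ + m₁ + 8 ^ 10) ?_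
  rintro m hm g1 ⟨g2, g3⟩ he hLP
  obtain ⟨t, ht⟩ := he
  have ht' : m = 2 * t := by omega
  have h8 : (8 : ℕ) ^ 10 ≤ m := by omega
  have hlm : 2 ≤ Real.log (m : ℝ) := hm₁ m (by omega)
  have hm0 : (0 : ℝ) < m := by
    have : 0 < m := by
      have : (0 : ℕ) < 8 ^ 10 := by norm_num
      omega
    exact_mod_cast this
  have hdiv : (m : ℝ) / Real.log m ^ 1 ≤ m / 2 := by
    rw [pow_one]
    exact div_le_div_of_nonneg_left hm0.le (by norm_num) hlm
  have htr : (m : ℝ) = 2 * t := by exact_mod_cast ht'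
  have ht1 : 1 ≤ t := by omega
  -- the totient
  have htot : Nat.totient m ≤ t := by rw [ht']; exact Pool.Agent.N733.AQ.totient_two_mul_le t
  have htote : Even (Nat.totient m) := Nat.totient_even (by omega)
  have hsig : 3 * t ≤ ∑ d ∈ m.divisors, d := by rw [ht']; exact Pool.Agent.N733.AQ.aliquot_ge t ht1
  have hal : aliquot m + m = ∑ d ∈ m.divisors, d := (Nat.sum_divisors_eq_sum_properDivisors_add_self).symm
  obtain ⟨p, hp, hpm, hpτ⟩ := hLP
  have hp2 : p ≠ 2 := by
    rintro rfl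
    have e1 : (8 : ℝ) ≤ (m : ℝ) ^ (1 / 6 + ρ) := by
      have e2 : (1 : ℝ) ≤ m := by exact_mod_cast (by omega : 1 ≤ m)
      calc (8 : ℝ) = ((8 : ℝ) ^ (10 : ℕ)) ^ (1 / 10 : ℝ) := by
            rw [← Real.rpow_natCast, ← Real.rpow_mul (by norm_num)]
            norm_num
        _ ≤ (m : ℝ) ^ (1 / 10 : ℝ) := by
            apply Real.rpow_le_rpow (by positivity) _ (by norm_num)
            exact_mod_cast h8
        _ ≤ (m : ℝ) ^ (1 / 6 + ρ) := Real.rpow_le_rpow_of_exponent_le e2 (by linarith)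
    have e3 : ((2 : ℕ) : ℝ) = 2 := by norm_num
    rw [e3] at hpτ
    linarith
  have hsige : 2 ∣ ∑ d ∈ m.divisors, d := Pool.Agent.N733.AQ.sigma_even hp hp2 hpm (g3 p hpτ)
  constructor
  · -- the aliquot sum
    have e1 : (-1 * (m : ℤ) + 1 * ((∑ d ∈ m.divisors, d : ℕ) : ℤ)) = (aliquot m : ℤ) := by
      rw [← hal]
      push_cast
      ring
    have e3 : Even (aliquot m) := by
      rw [even_iff_two_dvd]
      have h4 : 2 ∣ aliquot m + m := by rw [hal]; exact hsige
      exact (Nat.dvd_add_left ⟨t, ht'⟩).1 h4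
    have e2 : Lower 1 (aliquot m) := by
      have := g1 ⟨p, hp, hpm, hpτ⟩ (by
        rw [e1]
        refine hdiv.trans ?_
        push_cast
        have : t ≤ aliquot m := by omega
        have : (t : ℝ) ≤ aliquot m := by exact_mod_cast this
        linarith) (by
        rw [e1]
        exact_mod_cast e3)
      rw [e1, Int.toNat_natCast] at this
      exact this
    exact hn₀ _ (by omega) e3 e2
  · have e1 : (1 * (m : ℤ) + -1 * (Nat.totient m : ℤ)) = ((m - Nat.totient m : ℕ) : ℤ) := by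
      rw [Nat.cast_sub (by omega)]
      ring
    have e3 : Even (m - Nat.totient m) := by
      rw [Nat.even_sub (by omega)]
      exact ⟨fun _ => htote, fun _ => ⟨t, ht⟩⟩
    have e2 : Lower 1 (m - Nat.totient m) := by
      have := g2 ⟨p, hp, hpm, hpτ⟩ (by
        rw [e1]
        refine hdiv.trans ?_
        push_cast
        have h4 : t ≤ m - Nat.totient m := by omega
        have h5 : (t : ℝ) ≤ ((m - Nat.totient m : ℕ) : ℝ) := by exact_mod_cast h4
        rw [htr]
        push_cast [Nat.cast_sub (show Nat.totient m ≤ m by omega)] at h5 ⊢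
        linarith) (by
        rw [e1]
        exact_mod_cast e3)
      rw [e1, Int.toNat_natCast] at this
      exact this
    exact hn₀ _ (by omega) e3 e2

open Classical in
theorem density (δ : ℝ) (hδ : δ < 0.99997) : ∃ N₀ : ℕ, ∀ N : ℕ, N₀ ≤ N →
    δ * (N / 2) ≤ (((Icc 1 N).filter (fun m => Even m ∧ Solved (aliquot m) ∧ Solved (m - Nat.totient m))).card : ℝ) := by
  obtain ⟨η', hη'⟩ : ∃ η' : ℝ, η' = min (0.99997 - δ) 1 / 400 := ⟨_, rfl⟩
  have hη'0 : 0 < η' := by
    rw [hη']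
    have := lt_min (show (0 : ℝ) < 0.99997 - δ by linarith) one_pos
    linarith
  have hη'1 : 400 * η' ≤ 0.99997 - δ := by
    rw [hη']
    have := min_le_left (0.99997 - δ) (1 : ℝ)
    linarith
  have hη'2 : 400 * η' ≤ 1 := by
    rw [hη']
    have := min_le_right (0.99997 - δ) (1 : ℝ)
    linarith
  obtain ⟨η, hη⟩ : ∃ η : ℝ, η = η' := ⟨_, rfl⟩
  have hη0 : 0 < η := by rw [hη]; exact hη'0
  rw [← hη] at hη'1 hη'2
  have hrho : Pool.Agent.Helper923.HRho.rho (1 / (1 / 6 + η)) < 3 / 100000 + 40 * η := by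
    have h6 := Pool.Agent.T2h83.AQ.rho_six
    have h7 : (1 : ℝ) / (1 / 6 + η) ≤ 6 := by
      rw [div_le_iff₀ (by positivity)]
      linarith
    have h8 := Pool.Agent.Helper923.HRho.rho_lip h7
    have h9 : (6 : ℝ) - 1 / (1 / 6 + η) ≤ 36 * η := by
      have h10 : (6 - 36 * η) * (1 / 6 + η) ≤ 1 := by nlinarith
      have h11 : 6 - 36 * η ≤ 1 / (1 / 6 + η) := by
        rw [le_div_iff₀ (by positivity)]
        exact h10
      linarith
    linarith
  have h1 := (almostAll_iff _).1 (both η hη0) (η / 4) (by positivity)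
  obtain ⟨N₁, hN₁⟩ := h1
  obtain ⟨M₀, hM₀⟩ := Pool.Agent.T2h83.AQ.few_smooth_rho (τ := 1 / 6 + η) (by positivity) (by linarith) hrho
  obtain ⟨N₂, hN₂⟩ := exists_nat_gt (2 / η)
  refine ⟨N₁ + 2 * M₀ + N₂ + 2, fun N hN => ?_⟩
  have hb := hN₁ N (by omega)
  obtain ⟨M, hM⟩ : ∃ M, M = N / 2 := ⟨_, rfl⟩
  have hc := hM₀ M (by omega)
  -- the even integers
  have hsub : (Icc 1 M).image (fun t => 2 * t) ⊆
      ((Icc 1 N).filter (fun m => Even m ∧ Solved (aliquot m) ∧ Solved (m - Nat.totient m)) ∪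
        (Icc 1 N).filter (fun m => ¬ (Even m → LargePrime (1 / 6 + η) m → Solved (aliquot m) ∧
          Solved (m - Nat.totient m)))) ∪
        ((Icc 1 M).filter (fun m : ℕ => ∀ p : ℕ, p.Prime → p ∣ m → (p : ℝ) ≤ ((2 * M : ℕ) : ℝ) ^ (1 / 6 + η))).image
          (fun t => 2 * t) := by
    intro m hm
    rw [mem_image] at hm
    obtain ⟨t, ht, rfl⟩ := hm
    rw [mem_Icc] at ht
    have hmem : 2 * t ∈ Icc 1 N := by rw [mem_Icc]; omega
    rw [mem_union, mem_union, mem_filter, mem_filter, mem_image]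
    by_cases h2 : Solved (aliquot (2 * t)) ∧ Solved (2 * t - Nat.totient (2 * t))
    · left; left
      exact ⟨hmem, even_two_mul t, h2⟩
    · by_cases h3 : LargePrime (1 / 6 + η) (2 * t)
      · left; right
        exact ⟨hmem, fun h => h2 (h (even_two_mul t) h3)⟩
      · right
        refine ⟨t, ?_, rfl⟩
        rw [mem_filter, mem_Icc]
        refine ⟨ht, fun p hp hpt => ?_⟩
        by_contra h4
        push Not at h4
        apply h3
        refine ⟨p, hp, Dvd.dvd.mul_left hpt 2, ?_⟩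
        refine le_trans ?_ h4.le
        apply Real.rpow_le_rpow (by positivity) _ (by positivity)
        exact_mod_cast (by omega : 2 * t ≤ 2 * M)
  have hcard : ((Icc 1 M).image (fun t => 2 * t)).card = M := by
    rw [card_image_of_injective _ (fun a b h => by simpa using h), Nat.card_Icc, Nat.add_sub_cancel]
  have h2 := card_le_card hsub
  rw [hcard] at h2
  have h3 : (M : ℝ) ≤ ((((Icc 1 N).filter (fun m => Even m ∧ Solved (aliquot m) ∧ Solved (m - Nat.totient m))).card : ℝ) +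
      (((Icc 1 N).filter (fun m => ¬ (Even m → LargePrime (1 / 6 + η) m → Solved (aliquot m) ∧
          Solved (m - Nat.totient m)))).card : ℝ)) +
      (((Icc 1 M).filter (fun m : ℕ => ∀ p : ℕ, p.Prime → p ∣ m → (p : ℝ) ≤ ((2 * M : ℕ) : ℝ) ^ (1 / 6 + η))).card : ℝ) := by
    have h4 := h2.trans ((card_union_le _ _).trans (add_le_add (card_union_le _ _) card_image_le))
    exact_mod_cast h4
  have hMN : (N : ℝ) / 2 - 1 ≤ M := by
    have : N ≤ 2 * M + 1 := by omega
    have : (N : ℝ) ≤ 2 * M + 1 := by exact_mod_cast this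
    linarith
  have hMN2 : (M : ℝ) ≤ N / 2 := by
    have : 2 * M ≤ N := by omega
    have : (2 : ℝ) * M ≤ N := by exact_mod_cast this
    linarith
  have hN2 : 2 / η ≤ N := by
    have : (N₂ : ℝ) ≤ N := by exact_mod_cast (by omega : N₂ ≤ N)
    linarith
  rw [div_le_iff₀ hη0] at hN2
  have hb' : (((Icc 1 N).filter (fun m => ¬ (Even m → LargePrime (1 / 6 + η) m → Solved (aliquot m) ∧
          Solved (m - Nat.totient m)))).card : ℝ) ≤ η / 4 * N :=
    le_trans (Nat.cast_le.2 (card_mono' (fun m hm => hm))) hb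
  have hc' : (((Icc 1 M).filter (fun m : ℕ => ∀ p : ℕ, p.Prime → p ∣ m →
      (p : ℝ) ≤ ((2 * M : ℕ) : ℝ) ^ (1 / 6 + η))).card : ℝ) ≤ (3 / 100000 + 40 * η) * M :=
    le_trans (Nat.cast_le.2 (card_mono' (fun m hm => hm))) hc
  have hN0 : (0 : ℝ) ≤ N := Nat.cast_nonneg _
  have e1 : (0.99997 - 40 * η) * ((N : ℝ) / 2 - 1) ≤ (0.99997 - 40 * η) * M :=
    mul_le_mul_of_nonneg_left hMN (by linarith)
  have e2 : δ * ((N : ℝ) / 2) ≤ (0.99997 - 400 * η) * (N / 2) :=
    mul_le_mul_of_nonneg_right (by linarith) (by linarith)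
  have e3 : (1 : ℝ) ≤ η * N / 2 := by linarith
  nlinarith

open Classical in
/-- **Goldbach's problem for aliquot sums, cototients and similar functions.** Let `2 / 3 ≤ θ ≤ 5 / 6`, let `f` be a
positive multiplicative function of moderate growth with `f p = p + c`, `c ≠ 0`, for all large primes `p`, let `α`, `β` be
nonzero integers, `g(m) = α m + β f(m)`, and let `ρ, ε > 0`. For almost all `m` with a prime factor `≥ m^(1 - θ + ρ)` and
`g(m) ≥ m / (log m)^C` the integer `g(m)`, if it is even, has between `1 - F² - ε` times and `1 + F + ε` times the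
predicted number of representations in all long windows, `0 ≤ F ≤ 0.965`. For almost all even `m` with a prime factor
`≥ m^(1/6 + ρ)` the sum `s(m)` of the proper divisors and the cototient `m - φ(m)` are sums of two different primes; this
is so for a proportion of at least `0.99997` of the even integers `m`. -/
theorem result :
    (∀ θ : ℝ, 2 / 3 ≤ θ → θ ≤ 5 / 6 → 0 ≤ F (θ / (2 - 2 * θ)) ∧ F (θ / (2 - 2 * θ)) ≤ 0.965 ∧
      ∀ (f : ℕ → ℕ) (c α β : ℤ) (C W : ℕ) (ρ ε : ℝ), Moderate f c → c ≠ 0 → α ≠ 0 → β ≠ 0 → 0 < ρ → 0 < ε →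
        AlmostAll (fun m => LargePrime (1 - θ + ρ) m → (m : ℝ) / Real.log m ^ C ≤ ((α * m + β * f m : ℤ) : ℝ) →
          Even (α * m + β * f m) → Bounds (1 - F (θ / (2 - 2 * θ)) ^ 2 - ε) (1 + F (θ / (2 - 2 * θ)) + ε) W
            (α * m + β * f m).toNat)) ∧
    (∀ ρ : ℝ, 0 < ρ → AlmostAll (fun m => Even m → LargePrime (1 / 6 + ρ) m →
      Solved (aliquot m) ∧ Solved (m - Nat.totient m))) ∧
    ∀ δ : ℝ, δ < 0.99997 → ∃ N₀ : ℕ, ∀ N : ℕ, N₀ ≤ N → δ * (N / 2) ≤
      (((Icc 1 N).filter (fun m => Even m ∧ Solved (aliquot m) ∧ Solved (m - Nat.totient m))).card : ℝ) := by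
  refine ⟨fun θ h1 h2 => ?_, both, density⟩
  obtain ⟨h3, h4⟩ := Pool.Agent.T2h83.GT.FU_bd h1 h2
  exact ⟨h3, by
    have h5 : F (θ / (2 - 2 * θ)) ≤ 965 / 1000 := h4
    linarith, bounds θ h1 h2⟩

end Pool.Agent.Results.MP_967f73_nt.AliquotSumsAlmostAll
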