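import Pool.Agent.T2h83.AM.Main

/-!
# The totient form of Goldbach's conjecture in ALL residue classes of almost all moduli up to `X / (log X)^B`

Let `𝔖(m)` be the singular series of the binary Goldbach problem. We count the integral solutions `x` of the system
`φ(n - x) + 1 = n - x`, `φ(n + x) + 1 = n + x` in intervals `(y₁, y₂] ⊆ [-n, n]` of length at least
`2 n / (log 2 n)^W`; Hardy and Littlewood predict `𝔖(2 n) (y₂ - y₁) / (log 2 n)²` solutions.

For all `ε, A, W` there is a `B` such that for `Q ≤ X / (log X)^B` all moduli `q ∈ (Q, 2 Q]`, with at most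
`Q / (log X)^A` exceptions, have the following property: in EVERY residue class modulo `q` (coprime to `q` or not),
for all but a proportion `(log X)^(-A)` of its members `n` in `(X, X + H]`, `X / (log X)^A ≤ H ≤ X`, the prediction is
correct up to the factor `1 ± ε` in all these intervals.

Hence for all `A` there is a `C` such that for all but `Q / (log Q)^A` of the moduli `q ∈ (Q, 2 Q]`, every residue class
modulo `q` contains an `n ≤ q (log q)^C` for which the system is solvable.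

The proof (project AM, `T2h83/AM`): let `F(α)` be the exponential sum of `Λ - (sieve model)`. If a modulus `q` is bad,
then the sum of `|F|²` over the points `β + c / q` is large for some `β`, so that the weights `|F|²`, attached to the
intervals of length `1 / (2 N)`, concentrate near an arithmetic progression with the difference `1 / q`. With the kernel
of Fejer this gives large values at multiples `h q` of the Fourier transform of the weights, whose mean square is small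
by Parseval and the uniform bound of Vinogradov for `F`.
-/

set_option autoImplicit false

namespace Pool.Agent.Results.MP_967f73_nt.AlmostAllModuli

open Finset
open Pool.Agent.H560R3.GB (sing)
open Pool.Agent.Y883.T4 (badc)
open Pool.Agent.W93.PG (WinP)

/-- `x` is an integral solution of the system `φ(n - x) + 1 = n - x`, `φ(n + x) + 1 = n + x`. -/
def Solution (n : ℕ) (x : ℤ) : Prop :=
  1 ≤ (n : ℤ) - x ∧ 1 ≤ (n : ℤ) + x ∧ (Nat.totient ((n : ℤ) - x).toNat : ℤ) + 1 = (n : ℤ) - x ∧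
    (Nat.totient ((n : ℤ) + x).toNat : ℤ) + 1 = (n : ℤ) + x

open Classical in
/-- the number of solutions `y₁ < x ≤ y₂` -/
noncomputable def count (n : ℕ) (y₁ y₂ : ℤ) : ℕ := ((Ioc y₁ y₂).filter (fun x => Solution n x)).card

/-- The number of solutions in every interval `(y₁, y₂] ⊆ [-n, n]` of length at least `2 n / (log 2 n)^W` is
`𝔖(2 n) (y₂ - y₁) / (log 2 n)²` up to a relative error of at most `ε`. -/
def Good (ε : ℝ) (W n : ℕ) : Prop :=
  ∀ y₁ y₂ : ℤ, -(n : ℤ) ≤ y₁ → y₁ < y₂ → y₂ ≤ n → (2 * n : ℝ) / Real.log (2 * n) ^ W ≤ (y₂ : ℝ) - y₁ →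
    |(count n y₁ y₂ : ℝ) - sing (2 * n) * ((y₂ : ℝ) - y₁) / Real.log (2 * n) ^ 2| ≤
      ε * (sing (2 * n) * ((y₂ : ℝ) - y₁) / Real.log (2 * n) ^ 2)

open Classical in
/-- the good integers in `(X, X + H]` which are congruent to `a` modulo `q` -/
noncomputable def goodOnes (ε : ℝ) (W X H q : ℕ) (a : ℤ) : Finset ℕ :=
  (Ioc X (X + H)).filter (fun n : ℕ => (n : ℤ) ≡ a [ZMOD q] ∧ Good ε W n)

/-- In EVERY residue class `a` modulo `q` and for every `H` with `X / (log X)^A ≤ H ≤ X`, there are at least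
`(1 - 1 / (log X)^A) H / q` good integers `n ∈ (X, X + H]` with `n ≡ a (mod q)`. -/
def AllClassesGood (ε : ℝ) (A W X q : ℕ) : Prop :=
  ∀ a : ℤ, ∀ H : ℕ, (X : ℝ) / Real.log X ^ A ≤ H → H ≤ X →
    (1 - 1 / Real.log X ^ A) * ((H : ℝ) / q) ≤ ((goodOnes ε W X H q a).card : ℝ)

/-- Every residue class modulo `q` contains an `n ≤ q (log q)^C` for which the system has a solution. -/
def SmallMembers (C q : ℕ) : Prop :=
  ∀ a : ℤ, ∃ n : ℕ, 2 ≤ n ∧ (n : ℝ) ≤ q * Real.log q ^ C ∧ (n : ℤ) ≡ a [ZMOD q] ∧ ∃ x : ℤ, Solution n x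

lemma tot_prime (m : ℕ) (h1 : 1 ≤ m) (h : m.totient + 1 = m) : m.Prime := by
  have h2 : 2 ≤ m := by
    rcases Nat.lt_or_ge m 2 with h3 | h3
    · have : m = 1 := by omega
      rw [this, Nat.totient_one] at h
      omega
    · exact h3
  exact (Nat.totient_eq_iff_prime (by omega)).1 (by omega)

lemma sol_iff (n : ℕ) (x : ℤ) (hx1 : -(n : ℤ) < x) (hx2 : x ≤ n) :
    Solution n x ↔ ((n : ℤ) + x).toNat.Prime ∧ (2 * n - ((n : ℤ) + x).toNat).Prime := by
  obtain ⟨u, hu⟩ : ∃ u : ℕ, (u : ℤ) = (n : ℤ) + x := ⟨((n : ℤ) + x).toNat, by omega⟩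
  obtain ⟨v, hv⟩ : ∃ v : ℕ, (v : ℤ) = (n : ℤ) - x := ⟨((n : ℤ) - x).toNat, by omega⟩
  have hu' : ((n : ℤ) + x).toNat = u := by omega
  have hv' : ((n : ℤ) - x).toNat = v := by omega
  have huv : 2 * n - u = v := by omega
  unfold Solution
  rw [hu', hv', huv, ← hu, ← hv]
  constructor
  · rintro ⟨h1, h2, h3, h4⟩
    exact ⟨tot_prime u (by omega) (by omega), tot_prime v (by omega) (by omega)⟩
  · rintro ⟨h1, h2⟩
    have a1 := h1.one_lt
    have a2 := h2.one_lt
    refine ⟨by omega, by omega, ?_, ?_⟩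
    · rw [Nat.totient_prime h2]
      omega
    · rw [Nat.totient_prime h1]
      omega

lemma good_of_WinP (W B n : ℕ) (ε : ℝ) (hn : 2 ≤ n) (hB : W ≤ B) (h : WinP ε B (2 * n)) : Good ε W n := by
  classical
  intro y₁ y₂ h1 h2 h3 h4
  have hn' : (2 : ℝ) ≤ n := by exact_mod_cast hn
  have hlog : 1 ≤ Real.log (2 * n) := by
    rw [Real.le_log_iff_exp_le (by positivity)]
    have := Real.exp_one_lt_d9
    linarith
  obtain ⟨u₁, hu1⟩ : ∃ u : ℕ, (u : ℤ) = (n : ℤ) + y₁ := ⟨((n : ℤ) + y₁).toNat, by omega⟩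
  obtain ⟨u₂, hu2⟩ : ∃ u : ℕ, (u : ℤ) = (n : ℤ) + y₂ := ⟨((n : ℤ) + y₂).toNat, by omega⟩
  have hu1r : (u₁ : ℝ) = n + y₁ := by exact_mod_cast hu1
  have hu2r : (u₂ : ℝ) = n + y₂ := by exact_mod_cast hu2
  have h5 : ((2 * n : ℕ) : ℝ) / Real.log ((2 * n : ℕ) : ℝ) ^ B ≤ (u₂ : ℝ) - u₁ := by
    push_cast
    rw [hu1r, hu2r]
    have e1 : (2 * n : ℝ) / Real.log (2 * n) ^ B ≤ (2 * n : ℝ) / Real.log (2 * n) ^ W := by
      apply div_le_div_of_nonneg_left (by positivity) (by positivity)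
      exact pow_le_pow_right₀ hlog hB
    linarith
  have h6 := h u₁ u₂ (by omega) (by omega) h5
  push_cast at h6
  have e2 : (u₂ : ℝ) - u₁ = (y₂ : ℝ) - y₁ := by rw [hu1r, hu2r]; ring
  rw [e2] at h6
  have h7 : Pool.Agent.W93.PG.cnt (2 * n) u₁ u₂ = count n y₁ y₂ := by
    unfold Pool.Agent.W93.PG.cnt count
    refine card_bij' (fun (p : ℕ) _ => (p : ℤ) - n) (fun (x : ℤ) _ => ((n : ℤ) + x).toNat) ?_ ?_ ?_ ?_
    · intro p hp
      rw [mem_filter, mem_Ioc] at hp ⊢
      obtain ⟨⟨a1, a2⟩, a3, a4⟩ := hp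
      have b1 : y₁ < (p : ℤ) - n := by omega
      have b2 : (p : ℤ) - n ≤ y₂ := by omega
      refine ⟨⟨b1, b2⟩, ?_⟩
      rw [sol_iff n _ (by omega) (by omega)]
      have : ((n : ℤ) + ((p : ℤ) - n)).toNat = p := by omega
      rw [this]
      exact ⟨a3, a4⟩
    · intro x hx
      rw [mem_filter, mem_Ioc] at hx ⊢
      obtain ⟨⟨a1, a2⟩, a3⟩ := hx
      rw [sol_iff n _ (by omega) (by omega)] at a3
      exact ⟨⟨by omega, by omega⟩, a3⟩
    · intro p _
      have : ((n : ℤ) + ((p : ℤ) - n)).toNat = p := by omega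
      exact this
    · intro x hx
      rw [mem_filter, mem_Ioc] at hx
      have : ((((n : ℤ) + x).toNat : ℕ) : ℤ) - n = x := by omega
      exact this
  rw [h7] at h6
  exact h6

lemma mod_of (m q : ℕ) (a : ℤ) (hq : 1 ≤ q) (h : (m : ℤ) ≡ a [ZMOD q]) : m % q = (a % (q : ℤ)).toNat % q := by
  have hq0 : (q : ℤ) ≠ 0 := by exact_mod_cast (by omega : q ≠ 0)
  have h1 : 0 ≤ a % (q : ℤ) := Int.emod_nonneg _ hq0
  have h2 : (m : ℤ) % q = a % q := h
  have h3 : ((m % q : ℕ) : ℤ) = ((a % (q : ℤ)).toNat : ℤ) := by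
    rw [Int.toNat_of_nonneg h1, ← h2]
    push_cast
    rfl
  have h4 : m % q = (a % (q : ℤ)).toNat := by exact_mod_cast h3
  rw [← h4, Nat.mod_mod]

/-- the number of the members of a residue class in an interval -/
lemma class_ge (X H q : ℕ) (a : ℤ) (hq : 1 ≤ q) :
    (H : ℝ) / q - 1 ≤ (((Ioc X (X + H)).filter (fun n : ℕ => (n : ℤ) ≡ a [ZMOD q])).card : ℝ) := by
  classical
  have hq0 : (0 : ℝ) < q := by exact_mod_cast hq
  have h1 : H / q ≤ ((Ioc X (X + H)).filter (fun n : ℕ => (n : ℤ) ≡ a [ZMOD q])).card := by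
    obtain ⟨c, hc⟩ : ∃ c : ℕ, c = (((a - X - 1) % (q : ℤ))).toNat := ⟨_, rfl⟩
    have hqz : (q : ℤ) ≠ 0 := by exact_mod_cast (by omega : q ≠ 0)
    have hqz' : (0 : ℤ) < q := by exact_mod_cast hq
    have hc1 : (c : ℤ) = (a - X - 1) % (q : ℤ) := by
      rw [hc, Int.toNat_of_nonneg (Int.emod_nonneg _ hqz)]
    have hc2 : (c : ℤ) < q := by rw [hc1]; exact Int.emod_lt_of_pos _ hqz'
    have hc3 : (q : ℤ) ∣ (a - X - 1) - c := by rw [hc1]; exact Int.dvd_self_sub_emod
    calc H / q = (range (H / q)).card := (card_range _).symm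
      _ ≤ _ := by
        apply card_le_card_of_injOn (fun j => X + 1 + c + j * q)
        · intro j hj
          rw [mem_coe, mem_range] at hj
          have e1 : (j + 1) * q ≤ H / q * q := Nat.mul_le_mul_right _ hj
          have e2 : H / q * q ≤ H := Nat.div_mul_le_self _ _
          have e3 : (j + 1) * q = j * q + q := by ring
          have e4 : c < q := by exact_mod_cast hc2
          have : X + 1 + c + j * q ∈ (Ioc X (X + H)).filter (fun n : ℕ => (n : ℤ) ≡ a [ZMOD q]) := by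
            rw [mem_filter, mem_Ioc]
            refine ⟨⟨by omega, by omega⟩, ?_⟩
            rw [Int.modEq_iff_dvd]
            have e5 : a - ((X + 1 + c + j * q : ℕ) : ℤ) = ((a - X - 1) - c) - j * q := by push_cast; ring
            rw [e5]
            exact Int.dvd_sub hc3 (Dvd.intro_left _ rfl)
          exact this
        · intro j _ j' _ hjj
          simp only at hjj
          have : j * q = j' * q := by omega
          exact Nat.eq_of_mul_eq_mul_right (by omega) this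
  have h2 : (H : ℝ) / q - 1 ≤ ((H / q : ℕ) : ℝ) := by
    have := Nat.lt_div_mul_add (show 0 < q by omega) (a := H)
    have h3 : (H : ℝ) < ((H / q : ℕ) : ℝ) * q + q := by exact_mod_cast this
    rw [sub_le_iff_le_add, div_le_iff₀ hq0]
    linarith
  exact h2.trans (by exact_mod_cast h1)

open Classical in
theorem main (ε : ℝ) (hε : 0 < ε) (A W : ℕ) : ∃ B X₀ : ℕ, ∀ X : ℕ, X₀ ≤ X → ∀ Q : ℕ,
    (Q : ℝ) * Real.log X ^ B ≤ X →
      (((Ioc Q (2 * Q)).filter (fun q => ¬ AllClassesGood ε A W X q)).card : ℝ) ≤ Q / Real.log X ^ A := by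
  obtain ⟨E, hE⟩ : ∃ E, E = 2 * A + 2 + W := ⟨_, rfl⟩
  obtain ⟨B, N₁, h1⟩ := Pool.Agent.T2h83.AM.am_main ε hε E E
  obtain ⟨N₂, h2⟩ := Filter.eventually_atTop.1 (Pool.Agent.Y614.GJ.Core.ev_log 1 (s := 1) one_pos (100 + 2 ^ (B + 1)))
  refine ⟨B + 2 * A + 4, N₁ + N₂ + 100, fun X hX Q hQX => ?_⟩
  obtain ⟨hL100, -⟩ := h2 X (by omega)
  have hX100 : (100 : ℝ) ≤ X := by exact_mod_cast (by omega : 100 ≤ X)
  have hX0 : (0 : ℝ) < X := by linarith
  have h2B : (0 : ℝ) < 2 ^ (B + 1) := by positivity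
  have hlog4 : Real.log X ≤ Real.log ((4 * X : ℕ) : ℝ) := by
    apply Real.log_le_log hX0
    push_cast
    linarith
  have hlog4' : Real.log ((4 * X : ℕ) : ℝ) ≤ 2 * Real.log X := by
    push_cast
    rw [Real.log_mul (by norm_num) hX0.ne']
    have h4 : Real.log 4 ≤ 4 := by
      have := Real.log_le_sub_one_of_pos (show (0 : ℝ) < 4 by norm_num)
      linarith
    linarith
  obtain ⟨L, hL⟩ : ∃ L, L = Real.log (X : ℝ) := ⟨_, rfl⟩
  unfold AllClassesGood
  rw [← hL] at hL100 hlog4 hlog4' hQX ⊢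
  have hL0 : 0 < L := by linarith
  have hL1 : 1 ≤ L := by linarith
  have hQ' : ((2 * Q : ℕ) : ℝ) * Real.log ((4 * X : ℕ) : ℝ) ^ B ≤ ((4 * X : ℕ) : ℝ) := by
    have e1 : Real.log ((4 * X : ℕ) : ℝ) ^ B ≤ (2 * L) ^ B := pow_le_pow_left₀ (by linarith) hlog4' B
    calc ((2 * Q : ℕ) : ℝ) * Real.log ((4 * X : ℕ) : ℝ) ^ B ≤ ((2 * Q : ℕ) : ℝ) * (2 * L) ^ B := by gcongr
      _ = Q * (2 ^ (B + 1) * L ^ B) := by rw [mul_pow, pow_succ]; push_cast; ring
      _ ≤ Q * (L * L ^ B) := by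
          have : (2 : ℝ) ^ (B + 1) ≤ L := by linarith
          gcongr
      _ = Q * L ^ (B + 1) := by ring
      _ ≤ Q * L ^ (B + 2 * A + 4) := by
          apply mul_le_mul_of_nonneg_left _ (Nat.cast_nonneg _)
          exact pow_le_pow_right₀ hL1 (by omega)
      _ ≤ X := hQX
      _ ≤ _ := by push_cast; linarith
  obtain ⟨S, hS1, hS2⟩ := h1 (4 * X) (by omega) (2 * Q) hQ'
  -- the bad moduli
  have hsub : ((Ioc Q (2 * Q)).filter (fun q => ¬ (∀ a : ℤ, ∀ H : ℕ, (X : ℝ) / L ^ A ≤ H → H ≤ X →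
      (1 - 1 / L ^ A) * ((H : ℝ) / q) ≤ ((goodOnes ε W X H q a).card : ℝ)))).card ≤ S.card := by
    apply card_le_card_of_injOn (fun q => 2 * q)
    · intro q hq
      rw [mem_coe, mem_filter, mem_Ioc] at hq
      obtain ⟨⟨hq1', hq2'⟩, hq3⟩ := hq
      rw [mem_coe]
      by_contra hqS
      apply hq3
      intro a H hH1 hH2
      have hq1 : 1 ≤ q := by omega
      have hq0 : (0 : ℝ) < q := by exact_mod_cast hq1
      have h3 := hS2 (2 * q) (by rw [mem_Ioc]; omega) hqS ((2 * a) % ((2 * q : ℕ) : ℤ)).toNat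
      obtain ⟨Ex, hEx⟩ : ∃ Ex, Ex = (Ioc X (X + H)).filter (fun n : ℕ => (n : ℤ) ≡ a [ZMOD q] ∧ ¬ Good ε W n) :=
        ⟨_, rfl⟩
      have h4 : Ex.card ≤ (badc (WinP ε E) (4 * X) (2 * q) ((2 * a) % ((2 * q : ℕ) : ℤ)).toNat).card := by
        apply card_le_card_of_injOn (fun n => 2 * n)
        · intro n hn
          rw [mem_coe, hEx, mem_filter, mem_Ioc] at hn
          obtain ⟨⟨a1, a2⟩, a3, a4⟩ := hn
          rw [mem_coe]
          unfold Pool.Agent.Y883.T4.badc
          rw [mem_filter, mem_Icc]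
          have b1 : 1 ≤ 2 * n := by omega
          have b2 : 2 * n ≤ 4 * X := by omega
          refine ⟨⟨b1, b2⟩, ⟨n, by ring⟩, mod_of (2 * n) (2 * q) (2 * a) (by omega) ?_, ?_⟩
          · rw [Int.modEq_iff_dvd] at a3 ⊢
            obtain ⟨d, hd⟩ := a3
            refine ⟨d, ?_⟩
            push_cast
            linear_combination 2 * hd
          · intro h5
            exact a4 (good_of_WinP W E n ε (by omega) (by omega) h5)
        · intro n _ n' _ hnn
          simp only at hnn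
          omega
      have h5 : (Ex.card : ℝ) ≤ (4 * X) / ((2 * q) * L ^ (2 * A + 2)) := by
        have e1 : (Ex.card : ℝ) ≤ ((4 * X : ℕ) : ℝ) / (((2 * q : ℕ) : ℝ) * Real.log ((4 * X : ℕ) : ℝ) ^ E) := by
          refine le_trans ?_ h3
          exact_mod_cast h4
        refine e1.trans ?_
        have e2 : L ^ (2 * A + 2) ≤ Real.log ((4 * X : ℕ) : ℝ) ^ E := by
          refine (pow_le_pow_right₀ hL1 (show 2 * A + 2 ≤ E by omega)).trans ?_
          exact pow_le_pow_left₀ hL0.le hlog4 _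
        have e3 : ((4 * X : ℕ) : ℝ) = 4 * X := by push_cast; ring
        have e4 : ((2 * q : ℕ) : ℝ) = 2 * q := by push_cast; ring
        rw [e3] at e2 ⊢
        rw [e4]
        apply div_le_div_of_nonneg_left (by positivity) (by positivity)
        exact mul_le_mul_of_nonneg_left e2 (by positivity)
      have h6 := class_ge X H q a hq1
      have h7 : ((Ioc X (X + H)).filter (fun n : ℕ => (n : ℤ) ≡ a [ZMOD q])).card =
          (goodOnes ε W X H q a).card + Ex.card := by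
        rw [← card_filter_add_card_filter_not (s := (Ioc X (X + H)).filter (fun n : ℕ => (n : ℤ) ≡ a [ZMOD q]))
          (fun n => Good ε W n)]
        congr 1
        · unfold goodOnes
          rw [filter_filter]
        · rw [hEx, filter_filter]
      rw [h7] at h6
      push_cast at h6
      have hLA : 0 < L ^ A := by positivity
      have h8 : (Ex.card : ℝ) ≤ (1 / 2) * ((1 / L ^ A) * ((H : ℝ) / q)) := by
        refine h5.trans ?_
        have e1 : (4 * X : ℝ) / ((2 * q) * L ^ (2 * A + 2)) = (2 / L ^ 2) * ((1 / L ^ A) * ((X / L ^ A) / q)) := by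
          rw [show 2 * A + 2 = A + A + 2 by ring, pow_add, pow_add]
          field_simp
          ring
        rw [e1]
        have e2 : 2 / L ^ 2 ≤ 1 / 2 := by
          rw [div_le_div_iff₀ (by positivity) (by norm_num)]
          nlinarith
        apply mul_le_mul e2 _ (by positivity) (by norm_num)
        apply mul_le_mul_of_nonneg_left _ (by positivity)
        exact div_le_div_of_nonneg_right hH1 hq0.le
      have h9 : (1 : ℝ) ≤ (1 / 2) * ((1 / L ^ A) * ((H : ℝ) / q)) := by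
        have hq2r : (q : ℝ) ≤ 2 * Q := by exact_mod_cast hq2'
        have e2 : (q : ℝ) * (2 * L ^ A) ≤ H := by
          refine le_trans ?_ hH1
          rw [le_div_iff₀ hLA]
          refine le_trans ?_ hQX
          have e3 : L ^ (B + 2 * A + 4) = L ^ A * L ^ A * L ^ (B + 4) := by
            rw [← pow_add, ← pow_add]; congr 1; ring
          have e4 : 4 ≤ L ^ (B + 4) := by
            calc (4 : ℝ) ≤ L := by linarith
              _ = L ^ 1 := (pow_one _).symm
              _ ≤ L ^ (B + 4) := pow_le_pow_right₀ hL1 (by omega)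
          rw [e3]
          calc (q : ℝ) * (2 * L ^ A) * L ^ A ≤ (2 * Q : ℝ) * (2 * L ^ A) * L ^ A := by gcongr
            _ = Q * (L ^ A * L ^ A * 4) := by ring
            _ ≤ Q * (L ^ A * L ^ A * L ^ (B + 4)) := by gcongr
        have e5 : (1 / 2) * ((1 / L ^ A) * ((H : ℝ) / q)) = H / (q * (2 * L ^ A)) := by field_simp
        rw [e5, le_div_iff₀ (by positivity), one_mul]
        exact e2
      have h10 : (1 - 1 / L ^ A) * ((H : ℝ) / q) = (H : ℝ) / q - (1 / L ^ A) * ((H : ℝ) / q) := by ring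
      rw [h10]
      linarith
    · intro q _ q' _ hqq
      simp only at hqq
      omega
  have h5 : (S.card : ℝ) ≤ Q / L ^ A := by
    refine hS1.trans ?_
    have e1 : 2 * L ^ A ≤ Real.log ((4 * X : ℕ) : ℝ) ^ E := by
      calc 2 * L ^ A ≤ L * L ^ A := by gcongr; linarith
        _ = L ^ (A + 1) := by ring
        _ ≤ L ^ E := pow_le_pow_right₀ hL1 (by omega)
        _ ≤ _ := pow_le_pow_left₀ hL0.le hlog4 _
    calc ((2 * Q : ℕ) : ℝ) / Real.log ((4 * X : ℕ) : ℝ) ^ E ≤ ((2 * Q : ℕ) : ℝ) / (2 * L ^ A) := by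
          apply div_le_div_of_nonneg_left (Nat.cast_nonneg _) (by positivity) e1
      _ = Q / L ^ A := by
          push_cast
          field_simp
  have h6 : (((Ioc Q (2 * Q)).filter (fun q => ¬ (∀ a : ℤ, ∀ H : ℕ, (X : ℝ) / L ^ A ≤ H → H ≤ X →
      (1 - 1 / L ^ A) * ((H : ℝ) / q) ≤ ((goodOnes ε W X H q a).card : ℝ)))).card : ℝ) ≤ S.card := by
    exact_mod_cast hsub
  exact h6.trans h5

/-- a good integer has a solution -/
lemma sol_of_good {W n : ℕ} {ε : ℝ} (hn : 2 ≤ n) (hε : ε < 1) (h : Good ε W n) : ∃ x : ℤ, Solution n x := by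
  classical
  have hn' : (2 : ℝ) ≤ n := by exact_mod_cast hn
  have hlog : 1 ≤ Real.log (2 * n) := by
    rw [Real.le_log_iff_exp_le (by positivity)]
    have := Real.exp_one_lt_d9
    linarith
  have h1 := h (-(n : ℤ)) n le_rfl (by omega) le_rfl (by
    push_cast
    have : (2 * n : ℝ) / Real.log (2 * n) ^ W ≤ 2 * n := div_le_self (by positivity) (one_le_pow₀ hlog)
    linarith)
  have h2 : 0 < (count n (-(n : ℤ)) n : ℝ) := by
    have h3 := Pool.Agent.W93.GB.one_le_sing (2 * n)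
    have h4 : (0 : ℝ) < ((n : ℤ) : ℝ) - ((-(n : ℤ) : ℤ) : ℝ) := by
      push_cast
      linarith
    have h5 : 0 < Real.log (2 * n) := by linarith
    have h6 : 0 < sing (2 * n) * (((n : ℤ) : ℝ) - ((-(n : ℤ) : ℤ) : ℝ)) / Real.log (2 * n) ^ 2 := by positivity
    have h7 := (abs_le.1 h1).1
    nlinarith
  have h3 : 0 < count n (-(n : ℤ)) n := by exact_mod_cast h2
  unfold count at h3
  obtain ⟨x, hx⟩ := card_pos.1 h3
  exact ⟨x, (mem_filter.1 hx).2⟩

open Classical in
theorem small (A : ℕ) : ∃ C Q₀ : ℕ, ∀ Q : ℕ, Q₀ ≤ Q →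
    (((Ioc Q (2 * Q)).filter (fun q => ¬ SmallMembers C q)).card : ℝ) ≤ Q / Real.log Q ^ A := by
  obtain ⟨B, X₀, h1⟩ := main (1 / 2) (by norm_num) (A + 1) 1
  obtain ⟨Q₁, h2⟩ := Filter.eventually_atTop.1
    (Pool.Agent.Y614.GJ.Core.ev_log (B + 2) (s := 1) one_pos (100 + 2 ^ (B + 1)))
  refine ⟨B + 2, X₀ + Q₁ + 100, fun Q hQ => ?_⟩
  obtain ⟨hL100, hLp⟩ := h2 Q (by omega)
  rw [Real.rpow_one] at hLp
  have hQ1 : 1 ≤ Q := by omega
  have hQ0 : (0 : ℝ) < Q := by exact_mod_cast hQ1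
  obtain ⟨L, hL⟩ : ∃ L, L = Real.log (Q : ℝ) := ⟨_, rfl⟩
  rw [← hL] at hL100 hLp ⊢
  have h2B : (0 : ℝ) < 2 ^ (B + 1) := by positivity
  have hL0 : 0 < L := by linarith
  have hL1 : 1 ≤ L := by linarith
  obtain ⟨X, hX⟩ : ∃ X, X = ⌊(Q : ℝ) * L ^ (B + 1)⌋₊ := ⟨_, rfl⟩
  have hX1 : (X : ℝ) ≤ Q * L ^ (B + 1) := by rw [hX]; exact Nat.floor_le (by positivity)
  have hQX : (Q : ℝ) ≤ Q * L ^ (B + 1) := le_mul_of_one_le_right hQ0.le (one_le_pow₀ hL1)
  have hQX' : Q ≤ X := by rw [hX]; exact Nat.le_floor hQX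
  have hXlo : (Q : ℝ) * L ^ (B + 1) / 2 ≤ X := by
    have h4 : (Q : ℝ) * L ^ (B + 1) < (X : ℝ) + 1 := by rw [hX]; exact Nat.lt_floor_add_one _
    have h5 : (1 : ℝ) ≤ X := by exact_mod_cast hQ1.trans hQX'
    linarith
  have hX0 : (0 : ℝ) < X := lt_of_lt_of_le hQ0 (by exact_mod_cast hQX')
  have hlogX : Real.log X ≤ 2 * L := by
    have e1 : (X : ℝ) ≤ Q * Q := by
      refine hX1.trans ?_
      have : L ^ (B + 1) ≤ L ^ (B + 2) := pow_le_pow_right₀ hL1 (by omega)
      gcongr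
      linarith
    calc Real.log X ≤ Real.log (Q * Q : ℝ) := Real.log_le_log hX0 e1
      _ = 2 * L := by rw [Real.log_mul hQ0.ne' hQ0.ne', hL]; ring
  have hlogX' : L ≤ Real.log X := by
    rw [hL]
    exact Real.log_le_log hQ0 (by exact_mod_cast hQX')
  have h3 := h1 X (by omega) Q (by
    have e1 : Real.log X ^ B ≤ (2 * L) ^ B := pow_le_pow_left₀ (by linarith) hlogX B
    refine le_trans ?_ hXlo
    calc (Q : ℝ) * Real.log X ^ B ≤ Q * (2 * L) ^ B := by gcongr
      _ = Q * (2 ^ (B + 1) * L ^ B) / 2 := by rw [mul_pow, pow_succ]; ring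
      _ ≤ Q * (L * L ^ B) / 2 := by
          have : (2 : ℝ) ^ (B + 1) ≤ L := by linarith
          gcongr
      _ = Q * L ^ (B + 1) / 2 := by ring)
  have h4 : (Ioc Q (2 * Q)).filter (fun q => ¬ SmallMembers (B + 2) q) ⊆
      (Ioc Q (2 * Q)).filter (fun q => ¬ AllClassesGood (1 / 2) (A + 1) 1 X q) := by
    intro q hq
    rw [mem_filter, mem_Ioc] at hq ⊢
    refine ⟨hq.1, fun hg => hq.2 ?_⟩
    intro a
    have hq1 : 1 ≤ q := by omega
    have hq0 : (0 : ℝ) < q := by exact_mod_cast hq1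
    have hLX1 : 1 ≤ Real.log X := by linarith
    have h5 := hg a X (div_le_self hX0.le (one_le_pow₀ hLX1)) le_rfl
    have h6 : 0 < ((goodOnes (1 / 2) 1 X X q a).card : ℝ) := by
      refine lt_of_lt_of_le ?_ h5
      have h7 : 1 / Real.log X ^ (A + 1) ≤ 1 / 2 := by
        apply one_div_le_one_div_of_le (by norm_num)
        calc (2 : ℝ) ≤ Real.log X := by linarith
          _ = Real.log X ^ 1 := (pow_one _).symm
          _ ≤ Real.log X ^ (A + 1) := pow_le_pow_right₀ hLX1 (by omega)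
      have h8 : 0 < (X : ℝ) / q := by positivity
      apply mul_pos _ h8
      linarith
    have h7 : 0 < (goodOnes (1 / 2) 1 X X q a).card := by exact_mod_cast h6
    obtain ⟨n, hn⟩ := card_pos.1 h7
    unfold goodOnes at hn
    rw [mem_filter, mem_Ioc] at hn
    obtain ⟨⟨a1, a2⟩, a3, a4⟩ := hn
    have hn2 : 2 ≤ n := by omega
    refine ⟨n, hn2, ?_, a3, sol_of_good hn2 (by norm_num) a4⟩
    have hnX : (n : ℝ) ≤ 2 * X := by
      have : n ≤ 2 * X := by omega
      exact_mod_cast this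
    have hQq : (Q : ℝ) ≤ q := by exact_mod_cast hq.1.1.le
    have hLq : L ≤ Real.log q := by
      rw [hL]
      exact Real.log_le_log hQ0 hQq
    calc (n : ℝ) ≤ 2 * X := hnX
      _ ≤ 2 * (Q * L ^ (B + 1)) := by linarith
      _ = Q * (2 * L ^ (B + 1)) := by ring
      _ ≤ Q * (L * L ^ (B + 1)) := by gcongr; linarith
      _ = Q * L ^ (B + 2) := by ring
      _ ≤ q * Real.log q ^ (B + 2) := by gcongr
  have h5 : (((Ioc Q (2 * Q)).filter (fun q => ¬ SmallMembers (B + 2) q)).card : ℝ) ≤ Q / Real.log X ^ (A + 1) := by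
    refine le_trans ?_ h3
    exact_mod_cast card_le_card h4
  refine h5.trans ?_
  apply div_le_div_of_nonneg_left hQ0.le (by positivity)
  calc L ^ A ≤ L ^ (A + 1) := pow_le_pow_right₀ hL1 (by omega)
    _ ≤ Real.log X ^ (A + 1) := pow_le_pow_left₀ hL0.le hlogX' _

open Classical in
/-- For all `ε > 0`, `A`, `W` there is a `B` such that for all large `X` and all `Q ≤ X / (log X)^B`, all but at most
`Q / (log X)^A` of the moduli `q ∈ (Q, 2 Q]` satisfy `AllClassesGood`: in every residue class almost all `n` have in all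
long intervals the predicted number of solutions. In particular, for all `A` there is a `C` such that for all large `Q`
and all but at most `Q / (log Q)^A` of the moduli `q ∈ (Q, 2 Q]`, every residue class modulo `q` contains an
`n ≤ q (log q)^C` for which the system has a solution. -/
theorem result :
    (∀ ε : ℝ, 0 < ε → ∀ A W : ℕ, ∃ B X₀ : ℕ, ∀ X : ℕ, X₀ ≤ X → ∀ Q : ℕ, (Q : ℝ) * Real.log X ^ B ≤ X →
      (((Ioc Q (2 * Q)).filter (fun q => ¬ AllClassesGood ε A W X q)).card : ℝ) ≤ Q / Real.log X ^ A) ∧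
    (∀ A : ℕ, ∃ C Q₀ : ℕ, ∀ Q : ℕ, Q₀ ≤ Q →
      (((Ioc Q (2 * Q)).filter (fun q => ¬ SmallMembers C q)).card : ℝ) ≤ Q / Real.log Q ^ A) :=
  ⟨fun ε hε A W => main ε hε A W, small⟩

end Pool.Agent.Results.MP_967f73_nt.AlmostAllModuli
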