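import Pool.Agent.T2q87.G5.Res

/-!
Binary Goldbach problem: the linear sieve with the level of distribution `5/9` for all even numbers
outside a set of at most `K (log X)^B` elements.  The constant in the upper bound for the number of
representations is `18/5`; the same bound holds for the number of primes `p` for which `n - p` is
free of prime factors below `X^(5/27)`, and there is a lower bound for the number of primes `p` for
which `n - p` is free of prime factors below `X^v`, for every `v < 5/18`.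
-/

set_option autoImplicit false

namespace Pool.Agent.Results.MP_967f73_nt.LinearSieveFiveNinths

open Finset

/-- the number of primes `p`, `y₁ < p ≤ y₂`, such that `n = p + q` with a prime `q` -/
noncomputable def reps (n : ℕ) (y₁ y₂ : ℝ) : ℕ :=
  {p : ℕ | p.Prime ∧ (∃ q : ℕ, q.Prime ∧ p + q = n) ∧ y₁ < (p : ℝ) ∧ (p : ℝ) ≤ y₂}.ncard

/-- the number of the primes `p`, `y₁ < p ≤ y₂`, such that `|n - p|` is a prime -/
noncomputable def pairs (n : ℕ) (y₁ y₂ : ℝ) : ℕ :=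
  {p : ℕ | p.Prime ∧ y₁ < (p : ℝ) ∧ (p : ℝ) ≤ y₂ ∧ ((n : ℤ) - p).natAbs.Prime}.ncard

/-- the number of the primes `p`, `y₁ < p ≤ y₂`, such that no prime below `z` divides `n - p` -/
noncomputable def rough (n : ℕ) (z y₁ y₂ : ℝ) : ℕ :=
  {p : ℕ | p.Prime ∧ y₁ < (p : ℝ) ∧ (p : ℝ) ≤ y₂ ∧
    ∀ q : ℕ, q.Prime → (q : ℤ) ∣ (n : ℤ) - p → z ≤ (q : ℝ)}.ncard

/-- the twin prime constant `∏_{p > 2} (1 - 1/(p-1)²)` -/
noncomputable def twinPrimeConstant : ℝ :=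
  ∏' p : Nat.Primes, if (p : ℕ) = 2 then 1 else 1 - 1 / ((p : ℝ) - 1) ^ 2

/-- the singular series `2 C₂ ∏_{p | n, p > 2} (p-1)/(p-2)` of an even number -/
noncomputable def singularSeries (n : ℕ) : ℝ :=
  2 * twinPrimeConstant *
    ∏ p ∈ n.primeFactors.filter (fun p => 2 < p), (((p : ℝ) - 1) / ((p : ℝ) - 2))

/-- Let `A` be a natural number.  For every `ε > 0` there are `B` and `K` such that for all `X ≥ 3`
each of the following holds for all but at most `K (log X)^B` of the even numbers `n ≤ X`.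

1. For all `2 ≤ y₁ < y₂ ≤ n` with `y₂ - y₁ ≥ n / (log n)^A` the number of primes `p`,
`y₁ < p ≤ y₂`, for which `n - p` is a prime is at most
`(18/5 + ε) S(n) (∫_{y₁}^{y₂} dt / log t) / log n` (`n ≥ 4`).

2. For all `2 ≤ y₁ < y₂ ≤ X` with `y₂ - y₁ ≥ X / (log X)^A` the number of primes `p`,
`y₁ < p ≤ y₂`, for which `|n - p|` is a prime is at most
`(18/5 + ε) S(n) (∫_{y₁}^{y₂} dt / log t) / log X`.

3. The same with the number of primes `p` for which `n - p` has no prime factor below `X^(5/27)`.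

4. (for `5/36 ≤ v < 5/18`, with `B` and `K` depending also on `v`) for all such `y₁`, `y₂` the
number of primes `p`, `y₁ < p ≤ y₂`, for which `n - p` has no prime factor below `X^v` is at least
`((18/5) log (5/(9v) - 1) - ε) S(n) (∫_{y₁}^{y₂} dt / log t) / log X`. -/
theorem result (A : ℕ) :
    (∀ ε : ℝ, 0 < ε → ∃ (B : ℕ) (K : ℝ), ∀ X : ℕ, 3 ≤ X →
      ({n : ℕ | Even n ∧ 4 ≤ n ∧ n ≤ X ∧ ∃ y₁ y₂ : ℝ, 2 ≤ y₁ ∧ y₁ + n / Real.log n ^ A ≤ y₂ ∧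
        y₂ ≤ n ∧ (18 / 5 + ε) * singularSeries n * (∫ t in y₁..y₂, 1 / Real.log t) / Real.log n <
          reps n y₁ y₂}.ncard : ℝ) ≤ K * Real.log X ^ B ∧
      ({n : ℕ | Even n ∧ 1 ≤ n ∧ n ≤ X ∧ ∃ y₁ y₂ : ℝ, 2 ≤ y₁ ∧ y₁ + X / Real.log X ^ A ≤ y₂ ∧
        y₂ ≤ X ∧ (18 / 5 + ε) * singularSeries n * (∫ t in y₁..y₂, 1 / Real.log t) / Real.log X <
          pairs n y₁ y₂}.ncard : ℝ) ≤ K * Real.log X ^ B ∧
      ({n : ℕ | Even n ∧ 1 ≤ n ∧ n ≤ X ∧ ∃ y₁ y₂ : ℝ, 2 ≤ y₁ ∧ y₁ + X / Real.log X ^ A ≤ y₂ ∧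
        y₂ ≤ X ∧ (18 / 5 + ε) * singularSeries n * (∫ t in y₁..y₂, 1 / Real.log t) / Real.log X <
          rough n ((X : ℝ) ^ (5 / 27 : ℝ)) y₁ y₂}.ncard : ℝ) ≤ K * Real.log X ^ B) ∧
    (∀ v : ℝ, 5 / 36 ≤ v → v < 5 / 18 → ∀ ε : ℝ, 0 < ε → ∃ (B : ℕ) (K : ℝ), ∀ X : ℕ, 3 ≤ X →
      ({n : ℕ | Even n ∧ 1 ≤ n ∧ n ≤ X ∧ ∃ y₁ y₂ : ℝ, 2 ≤ y₁ ∧ y₁ + X / Real.log X ^ A ≤ y₂ ∧
        y₂ ≤ X ∧ rough n ((X : ℝ) ^ v) y₁ y₂ <
          (18 / 5 * Real.log (5 / (9 * v) - 1) - ε) * singularSeries n *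
            (∫ t in y₁..y₂, 1 / Real.log t) / Real.log X}.ncard : ℝ) ≤ K * Real.log X ^ B) := by
  constructor
  · intro ε hε
    obtain ⟨B₁, K₁, h₁⟩ := Pool.Agent.T2q87.G5.gold ε hε A
    obtain ⟨B₂, K₂, h₂⟩ := Pool.Agent.T2q87.G5.pairs_upper ε hε A
    obtain ⟨B₃, K₃, h₃⟩ := Pool.Agent.T2q87.G5.rough_upper ε hε A
    refine ⟨B₁ + B₂ + B₃, |K₁| + |K₂| + |K₃|, ?_⟩
    intro X hX
    have hL : 1 ≤ Real.log X := Pool.Agent.T2q87.G5.logX hX
    have key : ∀ (K : ℝ) (B : ℕ), K ≤ |K₁| + |K₂| + |K₃| → B ≤ B₁ + B₂ + B₃ →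
        K * Real.log X ^ B ≤ (|K₁| + |K₂| + |K₃|) * Real.log X ^ (B₁ + B₂ + B₃) := by
      intro K B hK hB
      calc K * Real.log X ^ B ≤ (|K₁| + |K₂| + |K₃|) * Real.log X ^ B := by
            apply mul_le_mul_of_nonneg_right hK (by positivity)
        _ ≤ _ := by
            apply mul_le_mul_of_nonneg_left (pow_le_pow_right₀ hL hB) (by positivity)
    have a1 := le_abs_self K₁
    have a2 := le_abs_self K₂
    have a3 := le_abs_self K₃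
    have b1 := abs_nonneg K₁
    have b2 := abs_nonneg K₂
    have b3 := abs_nonneg K₃
    have hfin : ∀ P : ℕ → Prop, {n : ℕ | 1 ≤ n ∧ n ≤ X ∧ P n}.Finite := by
      intro P
      apply (Set.finite_Iic X).subset
      rintro n ⟨_, h, _⟩
      exact h
    refine ⟨?_, ?_, ?_⟩
    · refine le_trans ?_ ((h₁ X hX).trans (key K₁ B₁ (by linarith) (by omega)))
      have hsub : {n : ℕ | Even n ∧ 4 ≤ n ∧ n ≤ X ∧ ∃ y₁ y₂ : ℝ, 2 ≤ y₁ ∧
          y₁ + n / Real.log n ^ A ≤ y₂ ∧ y₂ ≤ n ∧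
          (18 / 5 + ε) * singularSeries n * (∫ t in y₁..y₂, 1 / Real.log t) / Real.log n <
          reps n y₁ y₂} ⊆
          {n : ℕ | 1 ≤ n ∧ n ≤ X ∧ Pool.Agent.T2q87.G5.BadG ε A n} := by
        rintro n ⟨hev, hn4, hnX, y₁, y₂, hy1, hy12, hy2, hbad⟩
        have hn4' : (4 : ℝ) ≤ n := by exact_mod_cast hn4
        have hln : 0 < Real.log n := Real.log_pos (by linarith)
        have hy12' : y₁ ≤ y₂ := by
          have : 0 ≤ (n : ℝ) / Real.log n ^ A := by positivity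
          linarith
        refine ⟨by omega, hnX, hev, hn4, y₁, y₂, hy1, hy12, hy2, ?_⟩
        have hsing : singularSeries n = Pool.Agent.W23.UB.sing n := rfl
        rw [hsing, Pool.Agent.T2q87.G5.li_sub hy1 hy12'] at hbad
        refine lt_of_lt_of_le hbad ?_
        have hle : reps n y₁ y₂ ≤ Pool.Agent.T2q87.G5.pairs n y₁ y₂ := by
          unfold reps Pool.Agent.T2q87.G5.pairs
          apply Set.ncard_le_ncard
          · rintro p ⟨h1, ⟨q, h2, h3⟩, h4, h5⟩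
            refine ⟨h1, h4, h5, ?_⟩
            have : ((n : ℤ) - p).natAbs = q := by omega
            rw [this]
            exact h2
          · apply (Set.finite_Iic ⌊y₂⌋₊).subset
            rintro p ⟨hp, _, h3, _⟩
            exact (Nat.le_floor_iff' hp.ne_zero).2 h3
        exact_mod_cast hle
      exact_mod_cast Set.ncard_le_ncard hsub (hfin _)
    · refine le_trans ?_ ((h₂ X hX).trans (key K₂ B₂ (by linarith) (by omega)))
      have hsub : {n : ℕ | Even n ∧ 1 ≤ n ∧ n ≤ X ∧ ∃ y₁ y₂ : ℝ, 2 ≤ y₁ ∧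
          y₁ + X / Real.log X ^ A ≤ y₂ ∧
          y₂ ≤ X ∧ (18 / 5 + ε) * singularSeries n * (∫ t in y₁..y₂, 1 / Real.log t) /
            Real.log X < pairs n y₁ y₂} ⊆
          {n : ℕ | 1 ≤ n ∧ n ≤ X ∧ Even n ∧ ∃ y₁ y₂ : ℝ, 2 ≤ y₁ ∧
            y₁ + X / Real.log X ^ A ≤ y₂ ∧
            y₂ ≤ X ∧ (18 / 5 + ε) * Pool.Agent.W23.UB.sing n *
              (∫ t in y₁..y₂, 1 / Real.log t) / Real.log X <
              Pool.Agent.T2q87.G5.pairs n y₁ y₂} := by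
        rintro n ⟨hev, hn1, hnX, h⟩
        exact ⟨hn1, hnX, hev, h⟩
      exact_mod_cast Set.ncard_le_ncard hsub (hfin _)
    · refine le_trans ?_ ((h₃ X hX).trans (key K₃ B₃ (by linarith) (by omega)))
      have hsub : {n : ℕ | Even n ∧ 1 ≤ n ∧ n ≤ X ∧ ∃ y₁ y₂ : ℝ, 2 ≤ y₁ ∧
          y₁ + X / Real.log X ^ A ≤ y₂ ∧
          y₂ ≤ X ∧ (18 / 5 + ε) * singularSeries n * (∫ t in y₁..y₂, 1 / Real.log t) /
            Real.log X < rough n ((X : ℝ) ^ (5 / 27 : ℝ)) y₁ y₂} ⊆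
          {n : ℕ | 1 ≤ n ∧ n ≤ X ∧ Even n ∧ ∃ y₁ y₂ : ℝ, 2 ≤ y₁ ∧
            y₁ + X / Real.log X ^ A ≤ y₂ ∧
            y₂ ≤ X ∧ (18 / 5 + ε) * Pool.Agent.W23.UB.sing n *
              (∫ t in y₁..y₂, 1 / Real.log t) / Real.log X <
              Pool.Agent.T2q87.G5.rough n ((X : ℝ) ^ (5 / 27 : ℝ)) y₁ y₂} := by
        rintro n ⟨hev, hn1, hnX, h⟩
        exact ⟨hn1, hnX, hev, h⟩
      exact_mod_cast Set.ncard_le_ncard hsub (hfin _)
  · intro v hv1 hv2 ε hε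
    obtain ⟨B, K, h⟩ := Pool.Agent.T2q87.G5.rough_lower v hv1 hv2 ε hε A
    refine ⟨B, K, ?_⟩
    intro X hX
    refine le_trans ?_ (h X hX)
    have hsub : {n : ℕ | Even n ∧ 1 ≤ n ∧ n ≤ X ∧ ∃ y₁ y₂ : ℝ, 2 ≤ y₁ ∧
        y₁ + X / Real.log X ^ A ≤ y₂ ∧
        y₂ ≤ X ∧ rough n ((X : ℝ) ^ v) y₁ y₂ <
          (18 / 5 * Real.log (5 / (9 * v) - 1) - ε) * singularSeries n *
            (∫ t in y₁..y₂, 1 / Real.log t) / Real.log X} ⊆
        {n : ℕ | 1 ≤ n ∧ n ≤ X ∧ Even n ∧ ∃ y₁ y₂ : ℝ, 2 ≤ y₁ ∧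
          y₁ + X / Real.log X ^ A ≤ y₂ ∧
          y₂ ≤ X ∧ Pool.Agent.T2q87.G5.rough n ((X : ℝ) ^ v) y₁ y₂ <
          (18 / 5 * Real.log (5 / (9 * v) - 1) - ε) * Pool.Agent.W23.UB.sing n *
            (∫ t in y₁..y₂, 1 / Real.log t) / Real.log X} := by
      rintro n ⟨hev, hn1, hnX, h⟩
      exact ⟨hn1, hnX, hev, h⟩
    have hf : {n : ℕ | 1 ≤ n ∧ n ≤ X ∧ Even n ∧ ∃ y₁ y₂ : ℝ, 2 ≤ y₁ ∧
          y₁ + X / Real.log X ^ A ≤ y₂ ∧
          y₂ ≤ X ∧ Pool.Agent.T2q87.G5.rough n ((X : ℝ) ^ v) y₁ y₂ <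
          (18 / 5 * Real.log (5 / (9 * v) - 1) - ε) * Pool.Agent.W23.UB.sing n *
            (∫ t in y₁..y₂, 1 / Real.log t) / Real.log X}.Finite := by
      apply (Set.finite_Iic X).subset
      rintro n ⟨_, h, _⟩
      exact h
    exact_mod_cast Set.ncard_le_ncard hsub hf

end Pool.Agent.Results.MP_967f73_nt.LinearSieveFiveNinths
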