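import Pool.Agent.T2h83.GT.Wf

/-!
# The totient form of Goldbach's conjecture in the residue classes of every modulus up to `X ^ (5 / 6 - ρ)`

Let `𝔖(m)` be the singular series of the binary Goldbach problem. We count the integral solutions `x` of the system
`φ(n - x) + 1 = n - x`, `φ(n + x) + 1 = n + x` in intervals `(y₁, y₂] ⊆ [-n, n]` of length at least
`2 n / (log 2 n)^W`; Hardy and Littlewood predict `𝔖(2 n) (y₂ - y₁) / (log 2 n)²` solutions.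

For `1 ≤ u ≤ 3` let `F(u) = log u + ∫_1^(u/2) log ((u - s) / s) ds / s` (the integral is absent for `u ≤ 2`); it is the
integral of Buchstab's function from `1` to `u`.

Let `2 / 3 ≤ θ ≤ 5 / 6` and `F = F (θ / (2 - 2 θ))`, so that `0 ≤ F ≤ 0.965`. For every modulus `q ≤ X ^ (θ - ρ)` and
every residue class `a` modulo `q` with `gcd(a, q) ≤ (log X)^T`, for all but a proportion `(log X)^(-A)` of the
`n ≡ a (mod q)` in `(X, X + H]`, `X / (log X)^A ≤ H ≤ X`, the number of the solutions in all these intervals is between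
`1 - F² - ε` times and `1 + F + ε` times the predicted number. Hence the least `n` in such a residue class for which
the system is solvable is smaller than `q ^ (6 / 5 + ε)`.

The proof (project GT, `T2h83/GT`) compares the primes with the sieve function
`1_{no prime factor ≤ N ^ (1 - θ)}(n) * Σ_{d ∣ n, d > N ^ (1 - θ / 2)} Λ(d)`, which is at least `Λ`, whose mean value is
`1 + F`, and which is well distributed in the arithmetic progressions of the moduli `q r`, `r` small.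
-/

set_option autoImplicit false

namespace Pool.Agent.Results.MP_967f73_nt.ProgressionsFiveSixths

open Finset
open Pool.Agent.H560R3.GB (sing)
open Pool.Agent.Y883.T4 (badc)
open Pool.Agent.T2h83.GT (WinT)

/-- `x` is an integral solution of the system `φ(n - x) + 1 = n - x`, `φ(n + x) + 1 = n + x`. -/
def Solution (n : ℕ) (x : ℤ) : Prop :=
  1 ≤ (n : ℤ) - x ∧ 1 ≤ (n : ℤ) + x ∧ (Nat.totient ((n : ℤ) - x).toNat : ℤ) + 1 = (n : ℤ) - x ∧
    (Nat.totient ((n : ℤ) + x).toNat : ℤ) + 1 = (n : ℤ) + x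

open Classical in
/-- the number of solutions `y₁ < x ≤ y₂` -/
noncomputable def count (n : ℕ) (y₁ y₂ : ℤ) : ℕ := ((Ioc y₁ y₂).filter (fun x => Solution n x)).card

/-- The number of solutions in every interval `(y₁, y₂] ⊆ [-n, n]` of length at least `2 n / (log 2 n)^W` is between
`lo` times and `hi` times the number `𝔖(2 n) (y₂ - y₁) / (log 2 n)²`. -/
def Good (W : ℕ) (lo hi : ℝ) (n : ℕ) : Prop :=
  ∀ y₁ y₂ : ℤ, -(n : ℤ) ≤ y₁ → y₁ < y₂ → y₂ ≤ n → (2 * n : ℝ) / Real.log (2 * n) ^ W ≤ (y₂ : ℝ) - y₁ →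
    lo * (sing (2 * n) * ((y₂ : ℝ) - y₁) / Real.log (2 * n) ^ 2) ≤ (count n y₁ y₂ : ℝ) ∧
    (count n y₁ y₂ : ℝ) ≤ hi * (sing (2 * n) * ((y₂ : ℝ) - y₁) / Real.log (2 * n) ^ 2)

open Classical in
/-- the good integers in `(X, X + H]` which are congruent to `a` modulo `q` -/
noncomputable def goodOnes (W : ℕ) (lo hi : ℝ) (X H q : ℕ) (a : ℤ) : Finset ℕ :=
  (Ioc X (X + H)).filter (fun n : ℕ => (n : ℤ) ≡ a [ZMOD q] ∧ Good W lo hi n)

/-- For all sufficiently large `X`, every modulus `q ≤ X ^ t`, every integer `a` with `gcd(a, q) ≤ (log X)^T` and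
every `H` with `X / (log X)^A ≤ H ≤ X`, there are at least `(1 - 1 / (log X)^A) H / q` good integers
`n ∈ (X, X + H]` with `n ≡ a (mod q)`. -/
def AlmostAllGood (t lo hi : ℝ) (A W T : ℕ) : Prop :=
  ∃ X₀ : ℕ, ∀ X : ℕ, X₀ ≤ X → ∀ q : ℕ, 1 ≤ q → (q : ℝ) ≤ (X : ℝ) ^ t →
    ∀ a : ℤ, (Int.gcd a q : ℝ) ≤ Real.log X ^ T → ∀ H : ℕ, (X : ℝ) / Real.log X ^ A ≤ H → H ≤ X →
      (1 - 1 / Real.log X ^ A) * ((H : ℝ) / q) ≤ ((goodOnes W lo hi X H q a).card : ℝ)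

/-- the function `F(u) = log u + ∫_1^(u/2) log ((u - s) / s) ds / s` -/
noncomputable def F (u : ℝ) : ℝ := Real.log u + ∫ s in (1 : ℝ)..max 1 (u / 2), Real.log ((u - s) / s) / s

lemma tot_prime (m : ℕ) (h1 : 1 ≤ m) (h : m.totient + 1 = m) : m.Prime := by
  have h2 : 2 ≤ m := by
    rcases Nat.lt_or_ge m 2 with h3 | h3
    · have : m = 1 := by omega
      rw [this, Nat.totient_one] at h
      omega
    · exact h3
  exact (Nat.totient_eq_iff_prime (by omega)).1 (by omega)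

lemma sol_iff (n : ℕ) (x : ℤ) (hx1 : -(n : ℤ) < x) (hx2 : x ≤ n) :
    Solution n x ↔ ((n : ℤ) + x).toNat.Prime ∧ (2 * n - ((n : ℤ) + x).toNat).Prime := by
  obtain ⟨u, hu⟩ : ∃ u : ℕ, (u : ℤ) = (n : ℤ) + x := ⟨((n : ℤ) + x).toNat, by omega⟩
  obtain ⟨v, hv⟩ : ∃ v : ℕ, (v : ℤ) = (n : ℤ) - x := ⟨((n : ℤ) - x).toNat, by omega⟩
  have hu' : ((n : ℤ) + x).toNat = u := by omega
  have hv' : ((n : ℤ) - x).toNat = v := by omega
  have huv : 2 * n - u = v := by omega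
  unfold Solution
  rw [hu', hv', huv, ← hu, ← hv]
  constructor
  · rintro ⟨h1, h2, h3, h4⟩
    exact ⟨tot_prime u (by omega) (by omega), tot_prime v (by omega) (by omega)⟩
  · rintro ⟨h1, h2⟩
    have a1 := h1.one_lt
    have a2 := h2.one_lt
    refine ⟨by omega, by omega, ?_, ?_⟩
    · rw [Nat.totient_prime h2]
      omega
    · rw [Nat.totient_prime h1]
      omega

lemma good_of_WinT (W B n : ℕ) (lo hi : ℝ) (hn : 2 ≤ n) (hB : W ≤ B) (h : WinT B lo hi (2 * n)) : Good W lo hi n := by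
  classical
  intro y₁ y₂ h1 h2 h3 h4
  have hn' : (2 : ℝ) ≤ n := by exact_mod_cast hn
  have hlog : 1 ≤ Real.log (2 * n) := by
    rw [Real.le_log_iff_exp_le (by positivity)]
    have := Real.exp_one_lt_d9
    linarith
  obtain ⟨u₁, hu1⟩ : ∃ u : ℕ, (u : ℤ) = (n : ℤ) + y₁ := ⟨((n : ℤ) + y₁).toNat, by omega⟩
  obtain ⟨u₂, hu2⟩ : ∃ u : ℕ, (u : ℤ) = (n : ℤ) + y₂ := ⟨((n : ℤ) + y₂).toNat, by omega⟩
  have hu1r : (u₁ : ℝ) = n + y₁ := by exact_mod_cast hu1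
  have hu2r : (u₂ : ℝ) = n + y₂ := by exact_mod_cast hu2
  have h5 : ((2 * n : ℕ) : ℝ) / Real.log ((2 * n : ℕ) : ℝ) ^ B ≤ (u₂ : ℝ) - u₁ := by
    push_cast
    rw [hu1r, hu2r]
    have e1 : (2 * n : ℝ) / Real.log (2 * n) ^ B ≤ (2 * n : ℝ) / Real.log (2 * n) ^ W := by
      apply div_le_div_of_nonneg_left (by positivity) (by positivity)
      exact pow_le_pow_right₀ hlog hB
    linarith
  obtain ⟨h6, h6'⟩ := h u₁ u₂ (by omega) (by omega) h5
  push_cast at h6 h6'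
  have e2 : (u₂ : ℝ) - u₁ = (y₂ : ℝ) - y₁ := by rw [hu1r, hu2r]; ring
  rw [e2] at h6 h6'
  have h7 : Pool.Agent.W93.PG.cnt (2 * n) u₁ u₂ = count n y₁ y₂ := by
    unfold Pool.Agent.W93.PG.cnt count
    refine card_bij' (fun (p : ℕ) _ => (p : ℤ) - n) (fun (x : ℤ) _ => ((n : ℤ) + x).toNat) ?_ ?_ ?_ ?_
    · intro p hp
      rw [mem_filter, mem_Ioc] at hp ⊢
      obtain ⟨⟨a1, a2⟩, a3, a4⟩ := hp
      have b1 : y₁ < (p : ℤ) - n := by omega
      have b2 : (p : ℤ) - n ≤ y₂ := by omega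
      refine ⟨⟨b1, b2⟩, ?_⟩
      rw [sol_iff n _ (by omega) (by omega)]
      have : ((n : ℤ) + ((p : ℤ) - n)).toNat = p := by omega
      rw [this]
      exact ⟨a3, a4⟩
    · intro x hx
      rw [mem_filter, mem_Ioc] at hx ⊢
      obtain ⟨⟨a1, a2⟩, a3⟩ := hx
      rw [sol_iff n _ (by omega) (by omega)] at a3
      exact ⟨⟨by omega, by omega⟩, a3⟩
    · intro p _
      have : ((n : ℤ) + ((p : ℤ) - n)).toNat = p := by omega
      exact this
    · intro x hx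
      rw [mem_filter, mem_Ioc] at hx
      have : ((((n : ℤ) + x).toNat : ℕ) : ℤ) - n = x := by omega
      exact this
  rw [h7] at h6 h6'
  exact ⟨h6, h6'⟩

lemma mod_of (m q : ℕ) (a : ℤ) (hq : 1 ≤ q) (h : (m : ℤ) ≡ a [ZMOD q]) : m % q = (a % (q : ℤ)).toNat % q := by
  have hq0 : (q : ℤ) ≠ 0 := by exact_mod_cast (by omega : q ≠ 0)
  have h1 : 0 ≤ a % (q : ℤ) := Int.emod_nonneg _ hq0
  have h2 : (m : ℤ) % q = a % q := h
  have h3 : ((m % q : ℕ) : ℤ) = ((a % (q : ℤ)).toNat : ℤ) := by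
    rw [Int.toNat_of_nonneg h1, ← h2]
    push_cast
    rfl
  have h4 : m % q = (a % (q : ℤ)).toNat := by exact_mod_cast h3
  rw [← h4, Nat.mod_mod]

lemma gcd_of (q : ℕ) (a : ℤ) (hq : 1 ≤ q) : Nat.gcd (a % (q : ℤ)).toNat q = Int.gcd a q := by
  have hq0 : (q : ℤ) ≠ 0 := by exact_mod_cast (by omega : q ≠ 0)
  have h1 : 0 ≤ a % (q : ℤ) := Int.emod_nonneg _ hq0
  have h2 : Int.gcd (a % (q : ℤ)) q = Int.gcd a q := Int.gcd_emod a q
  rw [← h2]
  conv_rhs => rw [← Int.toNat_of_nonneg h1]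
  exact (Int.gcd_natCast_natCast _ _).symm

/-- the number of the members of a residue class in an interval -/
lemma class_ge (X H q : ℕ) (a : ℤ) (hq : 1 ≤ q) :
    (H : ℝ) / q - 1 ≤ (((Ioc X (X + H)).filter (fun n : ℕ => (n : ℤ) ≡ a [ZMOD q])).card : ℝ) := by
  classical
  have hq0 : (0 : ℝ) < q := by exact_mod_cast hq
  have h1 : H / q ≤ ((Ioc X (X + H)).filter (fun n : ℕ => (n : ℤ) ≡ a [ZMOD q])).card := by
    obtain ⟨c, hc⟩ : ∃ c : ℕ, c = (((a - X - 1) % (q : ℤ))).toNat := ⟨_, rfl⟩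
    have hqz : (q : ℤ) ≠ 0 := by exact_mod_cast (by omega : q ≠ 0)
    have hqz' : (0 : ℤ) < q := by exact_mod_cast hq
    have hc1 : (c : ℤ) = (a - X - 1) % (q : ℤ) := by
      rw [hc, Int.toNat_of_nonneg (Int.emod_nonneg _ hqz)]
    have hc2 : (c : ℤ) < q := by rw [hc1]; exact Int.emod_lt_of_pos _ hqz'
    have hc3 : (q : ℤ) ∣ (a - X - 1) - c := by rw [hc1]; exact Int.dvd_self_sub_emod
    calc H / q = (range (H / q)).card := (card_range _).symm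
      _ ≤ _ := by
        apply card_le_card_of_injOn (fun j => X + 1 + c + j * q)
        · intro j hj
          rw [mem_coe, mem_range] at hj
          have e1 : (j + 1) * q ≤ H / q * q := Nat.mul_le_mul_right _ hj
          have e2 : H / q * q ≤ H := Nat.div_mul_le_self _ _
          have e3 : (j + 1) * q = j * q + q := by ring
          have e4 : c < q := by exact_mod_cast hc2
          have : X + 1 + c + j * q ∈ (Ioc X (X + H)).filter (fun n : ℕ => (n : ℤ) ≡ a [ZMOD q]) := by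
            rw [mem_filter, mem_Ioc]
            refine ⟨⟨by omega, by omega⟩, ?_⟩
            rw [Int.modEq_iff_dvd]
            have e5 : a - ((X + 1 + c + j * q : ℕ) : ℤ) = ((a - X - 1) - c) - j * q := by push_cast; ring
            rw [e5]
            exact Int.dvd_sub hc3 (Dvd.intro_left _ rfl)
          exact this
        · intro j _ j' _ hjj
          simp only at hjj
          have : j * q = j' * q := by omega
          exact Nat.eq_of_mul_eq_mul_right (by omega) this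
  have h2 : (H : ℝ) / q - 1 ≤ ((H / q : ℕ) : ℝ) := by
    have := Nat.lt_div_mul_add (show 0 < q by omega) (a := H)
    have h3 : (H : ℝ) < ((H / q : ℕ) : ℝ) * q + q := by exact_mod_cast this
    rw [sub_le_iff_le_add, div_le_iff₀ hq0]
    linarith
  exact h2.trans (by exact_mod_cast h1)

/-- from the even numbers `m ≤ N` to the integers in `(X, X + H]` -/
theorem transfer {θ lo hi : ℝ} (hθ0 : 1 / 2 ≤ θ) (hθ1 : θ ≤ 1)
    (hmain : ∀ t : ℝ, t < θ → ∀ A T : ℕ, ∃ N₀ : ℕ, ∀ N : ℕ, N₀ ≤ N → ∀ q : ℕ, 1 ≤ q → (q : ℝ) ≤ (N : ℝ) ^ t →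
      ∀ a : ℕ, (Nat.gcd a q : ℝ) ≤ Real.log N ^ T →
        ((badc (fun m => 3 ≤ m → WinT A lo hi m) N q a).card : ℝ) ≤ (N : ℝ) / (q * Real.log N ^ A))
    (ρ : ℝ) (hρ : 0 < ρ) (A W T : ℕ) : AlmostAllGood (θ - ρ) lo hi A W T := by
  classical
  obtain ⟨σ, hσ⟩ : ∃ σ : ℝ, σ = min ρ (1 / 10) / 2 := ⟨_, rfl⟩
  have hσ0 : 0 < σ := by rw [hσ]; have := lt_min hρ (show (0 : ℝ) < 1 / 10 by norm_num); linarith
  have hσ1 : 2 * σ ≤ ρ := by rw [hσ]; have := min_le_left ρ (1 / 10 : ℝ); linarith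
  have hσ2 : 2 * σ ≤ 1 / 10 := by rw [hσ]; have := min_le_right ρ (1 / 10 : ℝ); linarith
  obtain ⟨E, hE⟩ : ∃ E, E = 2 * A + 2 + W := ⟨_, rfl⟩
  obtain ⟨N₁, h1⟩ := hmain (θ - σ) (by linarith) E (T + 1)
  obtain ⟨N₂, h2⟩ := Filter.eventually_atTop.1 (Pool.Agent.Y614.GJ.Core.ev_log (2 * A + 4) (s := σ) hσ0 100)
  refine ⟨N₁ + N₂ + 100, fun X hX q hq1 hqX a ha H hH1 hH2 => ?_⟩
  obtain ⟨hL100, hLp⟩ := h2 X (by omega)
  have hX100 : (100 : ℝ) ≤ X := by exact_mod_cast (by omega : 100 ≤ X)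
  have hX0 : (0 : ℝ) < X := by linarith
  have hX1 : (1 : ℝ) ≤ X := by linarith
  have hq0 : (0 : ℝ) < q := by exact_mod_cast hq1
  obtain ⟨L, hL⟩ : ∃ L, L = Real.log (X : ℝ) := ⟨_, rfl⟩
  rw [← hL] at hL100 hLp ha hH1 ⊢
  have hL0 : 0 < L := by linarith
  have hL1 : 1 ≤ L := by linarith
  have hXσ : L ^ (2 * A + 4) ≤ (X : ℝ) ^ σ := hLp
  have hlog4 : L ≤ Real.log ((4 * X : ℕ) : ℝ) := by
    rw [hL]
    apply Real.log_le_log hX0
    push_cast
    linarith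
  have hq2 : (2 * q : ℝ) ≤ ((4 * X : ℕ) : ℝ) ^ (θ - σ) := by
    have e1 : (q : ℝ) ≤ (X : ℝ) ^ (θ - 2 * σ) := hqX.trans (Real.rpow_le_rpow_of_exponent_le hX1 (by linarith))
    have e2 : (2 : ℝ) ≤ (X : ℝ) ^ σ := by
      refine le_trans ?_ hXσ
      calc (2 : ℝ) ≤ L := by linarith
        _ = L ^ 1 := (pow_one _).symm
        _ ≤ L ^ (2 * A + 4) := pow_le_pow_right₀ hL1 (by omega)
    calc (2 * q : ℝ) ≤ (X : ℝ) ^ σ * (X : ℝ) ^ (θ - 2 * σ) := mul_le_mul e2 e1 hq0.le (by positivity)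
      _ = (X : ℝ) ^ (θ - σ) := by rw [← Real.rpow_add hX0]; congr 1; ring
      _ ≤ ((4 * X : ℕ) : ℝ) ^ (θ - σ) := by
          apply Real.rpow_le_rpow hX0.le _ (by linarith)
          push_cast
          linarith
  have hgcd : Int.gcd (2 * a) ((2 * q : ℕ) : ℤ) = 2 * Int.gcd a q := by
    have : ((2 * q : ℕ) : ℤ) = 2 * (q : ℤ) := by push_cast; ring
    rw [this, Int.gcd_mul_left]
    rfl
  have h3 := h1 (4 * X) (by omega) (2 * q) (by omega) (by push_cast; push_cast at hq2; exact hq2)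
    ((2 * a) % ((2 * q : ℕ) : ℤ)).toNat (by
    rw [gcd_of (2 * q) (2 * a) (by omega), hgcd]
    push_cast
    have e1 : L ^ T ≤ Real.log ((4 * X : ℕ) : ℝ) ^ T := pow_le_pow_left₀ hL0.le hlog4 T
    have e2 : (2 : ℝ) ≤ Real.log ((4 * X : ℕ) : ℝ) := by linarith
    push_cast at e1 e2
    rw [pow_succ]
    have e3 : 0 < Real.log (4 * (X : ℝ)) ^ T := by
      have : (0 : ℝ) < Real.log (4 * (X : ℝ)) := by linarith
      positivity
    nlinarith)
  -- the exceptions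
  obtain ⟨PP, hPP⟩ : ∃ PP : ℕ → Prop, PP = fun m => 3 ≤ m → WinT E lo hi m := ⟨_, rfl⟩
  rw [← hPP] at h3
  obtain ⟨Ex, hEx⟩ : ∃ Ex, Ex = (Ioc X (X + H)).filter (fun n : ℕ => (n : ℤ) ≡ a [ZMOD q] ∧ ¬ Good W lo hi n) :=
    ⟨_, rfl⟩
  have h4 : Ex.card ≤ (badc PP (4 * X) (2 * q) ((2 * a) % ((2 * q : ℕ) : ℤ)).toNat).card := by
    apply card_le_card_of_injOn (fun n => 2 * n)
    · intro n hn
      rw [mem_coe, hEx, mem_filter, mem_Ioc] at hn
      obtain ⟨⟨a1, a2⟩, a3, a4⟩ := hn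
      rw [mem_coe]
      unfold Pool.Agent.Y883.T4.badc
      rw [mem_filter, mem_Icc]
      have b1 : 1 ≤ 2 * n := by omega
      have b2 : 2 * n ≤ 4 * X := by omega
      refine ⟨⟨b1, b2⟩, ⟨n, by ring⟩, mod_of (2 * n) (2 * q) (2 * a) (by omega) ?_, ?_⟩
      · rw [Int.modEq_iff_dvd] at a3 ⊢
        obtain ⟨d, hd⟩ := a3
        refine ⟨d, ?_⟩
        push_cast
        linear_combination 2 * hd
      · intro h5
        rw [hPP] at h5
        have h6 : 3 ≤ 2 * n → WinT E lo hi (2 * n) := h5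
        exact a4 (good_of_WinT W E n lo hi (by omega) (by omega) (h6 (by omega)))
    · intro n _ n' _ hnn
      simp only at hnn
      omega
  have h5 : (Ex.card : ℝ) ≤ (4 * X) / ((2 * q) * L ^ (2 * A + 2)) := by
    have e1 : (Ex.card : ℝ) ≤ ((4 * X : ℕ) : ℝ) / (((2 * q : ℕ) : ℝ) * Real.log ((4 * X : ℕ) : ℝ) ^ E) := by
      refine le_trans ?_ h3
      exact_mod_cast h4
    refine e1.trans ?_
    have e2 : L ^ (2 * A + 2) ≤ Real.log ((4 * X : ℕ) : ℝ) ^ E := by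
      refine (pow_le_pow_right₀ hL1 (show 2 * A + 2 ≤ E by omega)).trans ?_
      exact pow_le_pow_left₀ hL0.le hlog4 _
    have e3 : ((4 * X : ℕ) : ℝ) = 4 * X := by push_cast; ring
    have e4 : ((2 * q : ℕ) : ℝ) = 2 * q := by push_cast; ring
    rw [e3] at e2 ⊢
    rw [e4]
    apply div_le_div_of_nonneg_left (by positivity) (by positivity)
    exact mul_le_mul_of_nonneg_left e2 (by positivity)
  -- all members of the class
  have h6 := class_ge X H q a hq1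
  have h7 : ((Ioc X (X + H)).filter (fun n : ℕ => (n : ℤ) ≡ a [ZMOD q])).card =
      (goodOnes W lo hi X H q a).card + Ex.card := by
    rw [← card_filter_add_card_filter_not (s := (Ioc X (X + H)).filter (fun n : ℕ => (n : ℤ) ≡ a [ZMOD q]))
      (fun n => Good W lo hi n)]
    congr 1
    · unfold goodOnes
      rw [filter_filter]
    · rw [hEx, filter_filter]
  rw [h7] at h6
  push_cast at h6
  -- the numerical part
  have hLA : 0 < L ^ A := by positivity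
  have h8 : (Ex.card : ℝ) ≤ (1 / 2) * ((1 / L ^ A) * ((H : ℝ) / q)) := by
    refine h5.trans ?_
    have e1 : (4 * X : ℝ) / ((2 * q) * L ^ (2 * A + 2)) = (2 / L ^ 2) * ((1 / L ^ A) * ((X / L ^ A) / q)) := by
      rw [show 2 * A + 2 = A + A + 2 by ring, pow_add, pow_add]
      field_simp
      ring
    rw [e1]
    have e2 : 2 / L ^ 2 ≤ 1 / 2 := by
      rw [div_le_div_iff₀ (by positivity) (by norm_num)]
      nlinarith
    apply mul_le_mul e2 _ (by positivity) (by norm_num)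
    apply mul_le_mul_of_nonneg_left _ (by positivity)
    exact div_le_div_of_nonneg_right hH1 hq0.le
  have h9 : (1 : ℝ) ≤ (1 / 2) * ((1 / L ^ A) * ((H : ℝ) / q)) := by
    have e1 : (q : ℝ) * L ^ (2 * A + 4) ≤ X := by
      calc (q : ℝ) * L ^ (2 * A + 4) ≤ (X : ℝ) ^ (θ - 2 * σ) * (X : ℝ) ^ σ := by
            apply mul_le_mul (hqX.trans (Real.rpow_le_rpow_of_exponent_le hX1 (by linarith))) hXσ (by positivity)
              (by positivity)
        _ = (X : ℝ) ^ (θ - σ) := by rw [← Real.rpow_add hX0]; congr 1; ring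
        _ ≤ (X : ℝ) ^ (1 : ℝ) := Real.rpow_le_rpow_of_exponent_le hX1 (by linarith)
        _ = X := Real.rpow_one _
    have e2 : (q : ℝ) * (2 * L ^ A) ≤ H := by
      refine le_trans ?_ hH1
      rw [le_div_iff₀ hLA]
      refine le_trans ?_ e1
      have e3 : L ^ (2 * A + 4) = L ^ A * L ^ A * L ^ 4 := by rw [← pow_add, ← pow_add]; congr 1; ring
      have e4 : 2 ≤ L ^ 4 := by
        calc (2 : ℝ) ≤ L := by linarith
          _ = L ^ 1 := (pow_one _).symm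
          _ ≤ L ^ 4 := pow_le_pow_right₀ hL1 (by norm_num)
      rw [e3]
      calc (q : ℝ) * (2 * L ^ A) * L ^ A = (q * (L ^ A * L ^ A)) * 2 := by ring
        _ ≤ (q * (L ^ A * L ^ A)) * L ^ 4 := mul_le_mul_of_nonneg_left e4 (by positivity)
        _ = _ := by ring
    have e5 : (1 / 2) * ((1 / L ^ A) * ((H : ℝ) / q)) = H / (q * (2 * L ^ A)) := by field_simp
    rw [e5, le_div_iff₀ (by positivity), one_mul]
    exact e2
  have h10 : (1 - 1 / L ^ A) * ((H : ℝ) / q) = (H : ℝ) / q - (1 / L ^ A) * ((H : ℝ) / q) := by ring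
  rw [h10]
  linarith

/-- a good integer has a solution -/
lemma sol_of_good {W n : ℕ} {lo hi : ℝ} (hn : 2 ≤ n) (hlo : 0 < lo) (h : Good W lo hi n) : ∃ x : ℤ, Solution n x := by
  classical
  have hn' : (2 : ℝ) ≤ n := by exact_mod_cast hn
  have hlog : 1 ≤ Real.log (2 * n) := by
    rw [Real.le_log_iff_exp_le (by positivity)]
    have := Real.exp_one_lt_d9
    linarith
  have h1 := (h (-(n : ℤ)) n le_rfl (by omega) le_rfl (by
    push_cast
    have : (2 * n : ℝ) / Real.log (2 * n) ^ W ≤ 2 * n := div_le_self (by positivity) (one_le_pow₀ hlog)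
    linarith)).1
  have h2 : 0 < (count n (-(n : ℤ)) n : ℝ) := by
    refine lt_of_lt_of_le ?_ h1
    have h3 := Pool.Agent.R460.GS.one_le_sing (2 * n)
    have h4 : (0 : ℝ) < ((n : ℤ) : ℝ) - ((-(n : ℤ) : ℤ) : ℝ) := by
      push_cast
      linarith
    have h5 : 0 < Real.log (2 * n) := by linarith
    positivity
  have h3 : 0 < count n (-(n : ℤ)) n := by exact_mod_cast h2
  unfold count at h3
  obtain ⟨x, hx⟩ := card_pos.1 h3
  exact ⟨x, (mem_filter.1 hx).2⟩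

lemma least {lo hi : ℝ} (hlo : 0 < lo) {T : ℕ} (h : ∀ ρ : ℝ, 0 < ρ → AlmostAllGood (5 / 6 - ρ) lo hi 1 1 T)
    (ε : ℝ) (hε : 0 < ε) : ∃ q₀ : ℕ, ∀ q : ℕ, q₀ ≤ q → ∀ a : ℤ, (Int.gcd a q : ℝ) ≤ Real.log q ^ T →
      ∃ n : ℕ, 2 ≤ n ∧ (n : ℝ) ≤ (q : ℝ) ^ (6 / 5 + ε) ∧ (n : ℤ) ≡ a [ZMOD q] ∧ ∃ x : ℤ, Solution n x := by
  classical
  obtain ⟨e, he⟩ : ∃ e, e = min ε 1 := ⟨_, rfl⟩
  have he0 : 0 < e := by rw [he]; exact lt_min hε one_pos
  have he1 : e ≤ 1 := by rw [he]; exact min_le_right _ _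
  have he2 : e ≤ ε := by rw [he]; exact min_le_left _ _
  obtain ⟨s, hs⟩ : ∃ s, s = 6 / 5 + e / 2 := ⟨_, rfl⟩
  obtain ⟨X₀, h1⟩ := h (e / 12) (by positivity)
  obtain ⟨Q₁, h2⟩ := Filter.eventually_atTop.1 (Pool.Agent.Y614.GJ.Core.ev_log 1 (s := e / 4) (by positivity) 3)
  obtain ⟨Q₂, h3⟩ := Filter.eventually_atTop.1 (Pool.Agent.Y614.GJ.Core.ev_log 1 (s := 1) one_pos 3)
  refine ⟨Q₁ + Q₂ + X₀ + 3, fun q hq a ha => ?_⟩
  obtain ⟨hL3, hLp⟩ := h2 q (by omega)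
  rw [pow_one] at hLp
  have hq1 : 1 ≤ q := by omega
  have hqr : (1 : ℝ) ≤ q := by exact_mod_cast hq1
  have hq0 : (0 : ℝ) < q := by linarith
  obtain ⟨X, hX⟩ : ∃ X, X = ⌊(q : ℝ) ^ s⌋₊ := ⟨_, rfl⟩
  have hX1 : (X : ℝ) ≤ (q : ℝ) ^ s := by rw [hX]; exact Nat.floor_le (by positivity)
  have hqs : (q : ℝ) ≤ (q : ℝ) ^ s := by
    calc (q : ℝ) = (q : ℝ) ^ (1 : ℝ) := (Real.rpow_one _).symm
      _ ≤ (q : ℝ) ^ s := Real.rpow_le_rpow_of_exponent_le hqr (by linarith)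
  have hqX : q ≤ X := by rw [hX]; exact Nat.le_floor hqs
  have hX2 : (q : ℝ) ^ s / 2 ≤ X := by
    have h4 : (q : ℝ) ^ s < (X : ℝ) + 1 := by rw [hX]; exact Nat.lt_floor_add_one _
    have h5 : (1 : ℝ) ≤ X := by exact_mod_cast hq1.trans hqX
    linarith
  have hq3 : (3 : ℝ) ≤ (q : ℝ) ^ (e / 4) := hL3.trans hLp
  have hqX2 : (q : ℝ) ≤ (X : ℝ) ^ (5 / 6 - e / 12) := by
    have h4 : ((q : ℝ) ^ s / 2) ^ (5 / 6 - e / 12) ≤ (X : ℝ) ^ (5 / 6 - e / 12) :=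
      Real.rpow_le_rpow (by positivity) hX2 (by linarith)
    refine le_trans ?_ h4
    rw [Real.div_rpow (by positivity) (by norm_num), ← Real.rpow_mul hq0.le]
    have h5 : (2 : ℝ) ^ (5 / 6 - e / 12) ≤ 2 := by
      calc (2 : ℝ) ^ (5 / 6 - e / 12) ≤ (2 : ℝ) ^ (1 : ℝ) :=
            Real.rpow_le_rpow_of_exponent_le (by norm_num) (by linarith)
        _ = 2 := Real.rpow_one _
    have h6 : 1 + e / 4 ≤ s * (5 / 6 - e / 12) := by
      rw [hs]
      nlinarith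
    have h7 : (q : ℝ) ^ (1 + e / 4) ≤ (q : ℝ) ^ (s * (5 / 6 - e / 12)) :=
      Real.rpow_le_rpow_of_exponent_le hqr h6
    rw [le_div_iff₀ (by positivity)]
    calc (q : ℝ) * (2 : ℝ) ^ (5 / 6 - e / 12) ≤ q * (q : ℝ) ^ (e / 4) := by
          apply mul_le_mul_of_nonneg_left _ hq0.le
          linarith
      _ = (q : ℝ) ^ (1 + e / 4) := by rw [Real.rpow_add hq0, Real.rpow_one]
      _ ≤ _ := h7
  have hlogqX : Real.log q ≤ Real.log X := Real.log_le_log hq0 (by exact_mod_cast hqX)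
  have hgcd : (Int.gcd a q : ℝ) ≤ Real.log X ^ T := ha.trans (pow_le_pow_left₀ (by linarith) hlogqX T)
  have hLX : 3 ≤ Real.log X := hL3.trans hlogqX
  have hX0 : (0 : ℝ) < X := lt_of_lt_of_le hq0 (by exact_mod_cast hqX)
  have h4 := h1 X (by omega) q hq1 hqX2 a hgcd X (by
    rw [pow_one]
    exact div_le_self hX0.le (by linarith)) le_rfl
  have h5 : 0 < ((goodOnes 1 lo hi X X q a).card : ℝ) := by
    refine lt_of_lt_of_le ?_ h4
    rw [pow_one]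
    have h6 : 1 / Real.log X ≤ 1 / 3 := one_div_le_one_div_of_le (by norm_num) hLX
    have h7 : 0 < (X : ℝ) / q := by positivity
    apply mul_pos _ h7
    linarith
  have h6 : 0 < (goodOnes 1 lo hi X X q a).card := by exact_mod_cast h5
  obtain ⟨n, hn⟩ := card_pos.1 h6
  unfold goodOnes at hn
  rw [mem_filter, mem_Ioc] at hn
  obtain ⟨⟨a1, a2⟩, a3, a4⟩ := hn
  have hn2 : 2 ≤ n := by omega
  refine ⟨n, hn2, ?_, a3, sol_of_good hn2 hlo a4⟩
  have h7 : (n : ℝ) ≤ 2 * X := by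
    have : n ≤ 2 * X := by omega
    exact_mod_cast this
  have h8 : (2 : ℝ) ≤ (q : ℝ) ^ (e / 4) := by linarith
  calc (n : ℝ) ≤ 2 * X := h7
    _ ≤ (q : ℝ) ^ (e / 4) * (q : ℝ) ^ s := mul_le_mul h8 hX1 hX0.le (by positivity)
    _ = (q : ℝ) ^ (e / 4 + s) := by rw [← Real.rpow_add hq0]
    _ ≤ (q : ℝ) ^ (6 / 5 + ε) := Real.rpow_le_rpow_of_exponent_le hqr (by rw [hs]; linarith)

/-- Let `2 / 3 ≤ θ ≤ 5 / 6` and `F = F (θ / (2 - 2 θ))`. Then `0 ≤ F ≤ 0.965`, and for all `ε, ρ > 0` and all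
`A, W, T`, for every modulus `q ≤ X ^ (θ - ρ)` and every class `a` with `gcd(a, q) ≤ (log X)^T`, almost all
`n ≡ a (mod q)` in `(X, X + H]` have in all intervals of length at least `2 n / (log 2 n)^W` between `1 - F² - ε` times
and `1 + F + ε` times the predicted number of solutions. In particular, for all large `q`, each class `a` modulo `q`
with `gcd(a, q) ≤ (log q)^T` contains an `n ≤ q ^ (6 / 5 + ε)` for which the system has a solution. -/
theorem result :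
    (∀ θ : ℝ, 2 / 3 ≤ θ → θ ≤ 5 / 6 →
      (0 ≤ F (θ / (2 - 2 * θ)) ∧ F (θ / (2 - 2 * θ)) ≤ 0.965) ∧
      ∀ ε : ℝ, 0 < ε → ∀ ρ : ℝ, 0 < ρ → ∀ A W T : ℕ,
        AlmostAllGood (θ - ρ) (1 - F (θ / (2 - 2 * θ)) ^ 2 - ε) (1 + F (θ / (2 - 2 * θ)) + ε) A W T) ∧
    (∀ ε : ℝ, 0 < ε → ∀ T : ℕ, ∃ q₀ : ℕ, ∀ q : ℕ, q₀ ≤ q → ∀ a : ℤ, (Int.gcd a q : ℝ) ≤ Real.log q ^ T →
      ∃ n : ℕ, 2 ≤ n ∧ (n : ℝ) ≤ (q : ℝ) ^ (6 / 5 + ε) ∧ (n : ℤ) ≡ a [ZMOD q] ∧ ∃ x : ℤ, Solution n x) := by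
  have hF : ∀ u, F u = Pool.Agent.T2h83.GT.FU u := fun u => rfl
  have hbd : ∀ θ : ℝ, 2 / 3 ≤ θ → θ ≤ 5 / 6 → 0 ≤ F (θ / (2 - 2 * θ)) ∧ F (θ / (2 - 2 * θ)) ≤ 0.965 := by
    intro θ h1 h2
    obtain ⟨h3, h4⟩ := Pool.Agent.T2h83.GT.FU_bd h1 h2
    rw [hF]
    exact ⟨h3, by linarith⟩
  have hall : ∀ θ : ℝ, 2 / 3 ≤ θ → θ ≤ 5 / 6 → ∀ ε : ℝ, 0 < ε → ∀ ρ : ℝ, 0 < ρ → ∀ A W T : ℕ,
      AlmostAllGood (θ - ρ) (1 - F (θ / (2 - 2 * θ)) ^ 2 - ε) (1 + F (θ / (2 - 2 * θ)) + ε) A W T := by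
    intro θ h1 h2 ε hε ρ hρ A W T
    exact transfer (by linarith) (by linarith)
      (fun t ht A T => Pool.Agent.T2h83.GT.gt_F ε hε h1 h2 t ht A T) ρ hρ A W T
  refine ⟨fun θ h1 h2 => ⟨hbd θ h1 h2, hall θ h1 h2⟩, fun ε hε T => ?_⟩
  obtain ⟨h3, h4⟩ := hbd (5 / 6) (by norm_num) le_rfl
  refine least (lo := 1 - F ((5 / 6) / (2 - 2 * (5 / 6))) ^ 2 - 1 / 100)
    (hi := 1 + F ((5 / 6) / (2 - 2 * (5 / 6))) + 1 / 100) ?_
    (fun ρ hρ => hall (5 / 6) (by norm_num) le_rfl (1 / 100) (by norm_num) ρ hρ 1 1 T) ε hε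
  have h5 : F ((5 / 6) / (2 - 2 * (5 / 6))) ^ 2 ≤ 0.965 ^ 2 := pow_le_pow_left₀ h3 h4 2
  norm_num at h5 ⊢
  linarith

end Pool.Agent.Results.MP_967f73_nt.ProgressionsFiveSixths
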